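import Mathlib

/-!
Module P98.ArcB (Mathlib only).  Reparametrisation of a path with connected fibres (second half of: a path contains an arc).

PROOF.  `K = g [0,1]` is compact, so separable: let `y_n` be a sequence in `X` with dense range in `K`.  Put
`c t = ∑' n, 2^(-n) * sSup ((fun u => min 1 (dist (g u) (y_n))) '' Icc 0 t)`... any function `c` with the following properties is enough: `c` is continuous and
monotone on `[0,1]`, and `c s = c t`, `s ≤ t`, if and only if `g` is constant on `[s,t]`.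
To get it: for `s < t` with `g` not constant on `[s,t]` there is `u ∈ (s,t]` with `g u ∉ g [0,s]` (otherwise `g u = g v`, `v ≤ s ≤ u`, so `g u = g s` by `hm`); choose `n` with
`φ_n = max 0 (1 - dist (·) y_n * (rational))` positive at `g u` and zero on the compact set `g [0,s]`; a countable family: `φ_(n,k) x = max 0 (1 - k * dist x y_n)`.
So use `c t = ∑' i, 2^(-i) * M_i t`, `M_i t = sSup ((fun u => φ_i (g u)) '' Icc 0 t)`, `i ↔ (n,k)`: each `M_i` is monotone and continuous (running maximum of a continuous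
function; Mathlib: `IsCompact.continuous_sSup` or a direct estimate), between 0 and 1.  If `g` is constant on `[s,t]` then `M_i s = M_i t` for all `i`.
Then `c 0 < c 1`; normalise to `c 0 = 0`, `c 1 = 1`; by the intermediate value theorem `c` maps `[0,1]` onto `[0,1]`; for `τ ∈ [0,1]` choose `t` with `c t = τ`,
`α τ = g t` (well defined); `α` is injective on `[0,1]` (`g s = g t` gives `g` constant on `[s,t]` gives `c s = c t`) and continuous (`c` is a closed map of compact spaces,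
preimages of closed sets: `α⁻¹ F = c (g⁻¹ F)`); extend by `projIcc` to `ℝ`.
Other proofs are welcome.
-/

open Set Topology

namespace Pool.Agent.Lib.P98

namespace ArcBAux

section running

variable {X : Type*} [MetricSpace X]

/-- the truncated distance of `G u` from `G q` -/
noncomputable def dd (G : ℝ → X) (q u : ℝ) : ℝ := min 1 (dist (G u) (G q))

theorem dd_nonneg (G : ℝ → X) (q u : ℝ) : 0 ≤ dd G q u := le_min zero_le_one dist_nonneg

theorem dd_le (G : ℝ → X) (q u : ℝ) : dd G q u ≤ 1 := min_le_left _ _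

theorem dd_self (G : ℝ → X) (q : ℝ) : dd G q q = 0 := by
  unfold dd
  rw [dist_self]
  exact min_eq_right zero_le_one

/-- the running maximum of the truncated distance from `G q`, from the time `q` on -/
noncomputable def M (G : ℝ → X) (q t : ℝ) : ℝ :=
  sSup ((fun l : ℝ => dd G q (q + l * max (t - q) 0)) '' Icc 0 1)

theorem M_cont {G : ℝ → X} (hG : Continuous G) (q : ℝ) : Continuous (M G q) := by
  have h : Continuous (fun p : ℝ × ℝ => dd G q (q + p.2 * max (p.1 - q) 0)) := by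
    unfold dd
    refine continuous_const.min ((hG.comp ?_).dist continuous_const)
    exact continuous_const.add
      (continuous_snd.mul ((continuous_fst.sub continuous_const).max continuous_const))
  exact isCompact_Icc.continuous_sSup
    (f := fun t l : ℝ => dd G q (q + l * max (t - q) 0)) h

theorem M_bdd (G : ℝ → X) (q t : ℝ) :
    BddAbove ((fun l : ℝ => dd G q (q + l * max (t - q) 0)) '' Icc 0 1) := by
  refine ⟨1, ?_⟩
  rintro _ ⟨l, _, rfl⟩
  exact dd_le _ _ _

theorem M_nonneg (G : ℝ → X) (q t : ℝ) : 0 ≤ M G q t :=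
  (dd_nonneg G q _).trans (le_csSup (M_bdd G q t) ⟨0, ⟨le_rfl, zero_le_one⟩, rfl⟩)

theorem M_le {G : ℝ → X} {q t B : ℝ} (hB : 0 ≤ B)
    (h : ∀ u, q ≤ u → u ≤ t → dd G q u ≤ B) : M G q t ≤ B := by
  refine csSup_le ⟨_, 0, ⟨le_rfl, zero_le_one⟩, rfl⟩ ?_
  rintro _ ⟨l, ⟨h0, h1⟩, rfl⟩
  simp only
  rcases le_total t q with htq | htq
  · rw [max_eq_right (sub_nonpos.2 htq), mul_zero, add_zero, dd_self]
    exact hB
  · rw [max_eq_left (sub_nonneg.2 htq)]
    have h2 : 0 ≤ t - q := sub_nonneg.2 htq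
    apply h
    · nlinarith
    · nlinarith

theorem M_le_one (G : ℝ → X) (q t : ℝ) : M G q t ≤ 1 :=
  M_le zero_le_one fun _ _ _ => dd_le _ _ _

theorem le_M {G : ℝ → X} {q t u : ℝ} (hu : q ≤ u) (hut : u ≤ t) : dd G q u ≤ M G q t := by
  rcases hu.eq_or_lt with rfl | hlt
  · rw [dd_self]
    exact M_nonneg _ _ _
  · have h2 : 0 < t - q := by linarith
    refine le_csSup (M_bdd G q t) ⟨(u - q) / (t - q), ⟨div_nonneg (by linarith) h2.le, ?_⟩, ?_⟩
    · rw [div_le_one h2]
      linarith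
    · simp only
      rw [max_eq_left h2.le, div_mul_cancel₀ _ h2.ne', add_sub_cancel]

theorem M_mono (G : ℝ → X) (q : ℝ) {s t : ℝ} (hst : s ≤ t) : M G q s ≤ M G q t :=
  M_le (M_nonneg _ _ _) fun _ h1 h2 => le_M h1 (h2.trans hst)

theorem M_const {G : ℝ → X} (q : ℝ) {s t : ℝ} (hst : s ≤ t) (h : ∀ u ∈ Icc s t, G u = G s) :
    M G q s = M G q t := by
  refine le_antisymm (M_mono G q hst) (M_le (M_nonneg _ _ _) fun u h1 h2 => ?_)
  rcases le_total u s with hus | hus
  · exact le_M h1 hus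
  · have e1 : G u = G s := h u ⟨hus, h2⟩
    rcases le_total q s with hqs | hqs
    · have e2 : dd G q u = dd G q s := by
        unfold dd
        rw [e1]
      rw [e2]
      exact le_M hqs le_rfl
    · have e3 : G q = G s := h q ⟨hqs, h1.trans h2⟩
      have e2 : dd G q u = 0 := by
        unfold dd
        rw [e1, e3, dist_self]
        exact min_eq_right zero_le_one
      rw [e2]
      exact M_nonneg _ _ _

theorem M_lt {G : ℝ → X} {q s t : ℝ} (h1 : s < q) (h2 : q ≤ t) (h : G q ≠ G t) :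
    M G q s < M G q t := by
  have e1 : M G q s ≤ 0 := M_le le_rfl fun u h3 h4 => absurd (h3.trans h4) (not_le.2 h1)
  have e2 : 0 < dd G q t := lt_min zero_lt_one (dist_pos.2 h.symm)
  exact e1.trans_lt (e2.trans_le (le_M h2 le_rfl))

/-- the time change -/
noncomputable def cc (G : ℝ → X) (t : ℝ) : ℝ :=
  ∑' n : ℕ, (1 / 2 : ℝ) ^ n * M G (TopologicalSpace.denseSeq ℝ n) t

theorem cc_term_nonneg (G : ℝ → X) (q t : ℝ) (n : ℕ) : 0 ≤ (1 / 2 : ℝ) ^ n * M G q t :=
  mul_nonneg (by positivity) (M_nonneg _ _ _)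

theorem cc_term_le (G : ℝ → X) (q t : ℝ) (n : ℕ) : (1 / 2 : ℝ) ^ n * M G q t ≤ (1 / 2 : ℝ) ^ n :=
  mul_le_of_le_one_right (by positivity) (M_le_one _ _ _)

theorem cc_summable (G : ℝ → X) (t : ℝ) :
    Summable fun n : ℕ => (1 / 2 : ℝ) ^ n * M G (TopologicalSpace.denseSeq ℝ n) t :=
  Summable.of_nonneg_of_le (fun n => cc_term_nonneg G _ t n) (fun n => cc_term_le G _ t n)
    summable_geometric_two

theorem cc_cont {G : ℝ → X} (hG : Continuous G) : Continuous (cc G) := by
  refine continuous_tsum (fun n => continuous_const.mul (M_cont hG _)) summable_geometric_two ?_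
  intro n t
  rw [Real.norm_of_nonneg (cc_term_nonneg G _ t n)]
  exact cc_term_le G _ t n

theorem cc_mono (G : ℝ → X) : Monotone (cc G) := fun s t hst =>
  Summable.tsum_le_tsum (fun _ => mul_le_mul_of_nonneg_left (M_mono G _ hst) (by positivity))
    (cc_summable G s) (cc_summable G t)

theorem cc_const {G : ℝ → X} {s t : ℝ} (hst : s ≤ t) (h : ∀ u ∈ Icc s t, G u = G s) :
    cc G s = cc G t :=
  tsum_congr fun _ => by rw [M_const _ hst h]

theorem cc_lt {G : ℝ → X} (hG : Continuous G) {s t : ℝ} (hst : s ≤ t) (h : G s ≠ G t) :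
    cc G s < cc G t := by
  have hlt : s < t := lt_of_le_of_ne hst fun e => h (by rw [e])
  have hopen : IsOpen (Ioo s t ∩ {u | G u ≠ G t}) :=
    isOpen_Ioo.inter (isOpen_ne_fun hG continuous_const)
  have hne : (Ioo s t ∩ {u | G u ≠ G t}).Nonempty := by
    have h1 : ∀ᶠ u in 𝓝 s, G u ≠ G t := (isOpen_ne_fun hG continuous_const).mem_nhds h
    have h2 : ∀ᶠ u in 𝓝[>] s, G u ≠ G t := h1.filter_mono nhdsWithin_le_nhds
    have h3 : ∀ᶠ u in 𝓝[>] s, u ∈ Ioo s t := Ioo_mem_nhdsGT hlt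
    obtain ⟨u, hu1, hu2⟩ := (h3.and h2).exists
    exact ⟨u, hu1, hu2⟩
  obtain ⟨n, ⟨h1, h2⟩, h3⟩ := (TopologicalSpace.denseRange_denseSeq ℝ).exists_mem_open hopen hne
  refine Summable.tsum_lt_tsum (i := n)
    (fun _ => mul_le_mul_of_nonneg_left (M_mono G _ hst) (by positivity))
    (mul_lt_mul_of_pos_left (M_lt h1 h2.le h3) (by positivity)) (cc_summable G s) (cc_summable G t)

end running

end ArcBAux

open ArcBAux

theorem arc_of_monotone {X : Type*} [MetricSpace X] {g : ℝ → X} (hg : ContinuousOn g (Icc 0 1))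
    (hne : g 0 ≠ g 1)
    (hm : ∀ s ∈ Icc (0 : ℝ) 1, ∀ t ∈ Icc (0 : ℝ) 1, s ≤ t → g s = g t → ∀ u ∈ Icc s t, g u = g s) :
    ∃ α : ℝ → X, Continuous α ∧ InjOn α (Icc 0 1) ∧ α 0 = g 0 ∧ α 1 = g 1 ∧
      ∀ t ∈ Icc (0 : ℝ) 1, α t ∈ g '' Icc 0 1 := by
  classical
  have h01 : (0 : ℝ) ≤ 1 := zero_le_one
  have m0 : (0 : ℝ) ∈ Icc (0 : ℝ) 1 := ⟨le_rfl, h01⟩
  have m1 : (1 : ℝ) ∈ Icc (0 : ℝ) 1 := ⟨h01, le_rfl⟩
  set G : ℝ → X := fun t => g (projIcc 0 1 h01 t) with hGdef
  have hG : Continuous G := by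
    have h1 : Continuous ((Icc (0 : ℝ) 1).domRestrict g) := continuousOn_iff_continuous_domRestrict.1 hg
    exact h1.comp continuous_projIcc
  have hGg : ∀ t ∈ Icc (0 : ℝ) 1, G t = g t := by
    intro t ht
    simp only [hGdef]
    rw [projIcc_of_mem h01 ht]
  set c : ℝ → ℝ := cc G with hcdef
  have hc : Continuous c := cc_cont hG
  have hcm : Monotone c := cc_mono G
  -- equality of the times is equality of the points
  have key : ∀ s ∈ Icc (0 : ℝ) 1, ∀ t ∈ Icc (0 : ℝ) 1, s ≤ t → (c s = c t ↔ g s = g t) := by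
    intro s hs t ht hst
    constructor
    · intro h
      by_contra hn
      rw [← hGg s hs, ← hGg t ht] at hn
      exact (cc_lt hG hst hn).ne h
    · intro h
      refine cc_const hst fun u hu => ?_
      have hu' : u ∈ Icc (0 : ℝ) 1 := ⟨hs.1.trans hu.1, hu.2.trans ht.2⟩
      rw [hGg u hu', hGg s hs]
      exact hm s hs t ht hst h u hu
  have key' : ∀ s ∈ Icc (0 : ℝ) 1, ∀ t ∈ Icc (0 : ℝ) 1, (c s = c t ↔ g s = g t) := by
    intro s hs t ht
    rcases le_total s t with h | h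
    · exact key s hs t ht h
    · rw [eq_comm, key t ht s hs h, eq_comm]
  have hab : c 0 < c 1 := by
    refine lt_of_le_of_ne (hcm h01) fun h => hne ((key' 0 m0 1 m1).1 h)
  -- the quotient map
  let φ : Icc (0 : ℝ) 1 → Icc (c 0) (c 1) := fun t => ⟨c t, hcm t.2.1, hcm t.2.2⟩
  have hφ : Continuous φ := Continuous.subtype_mk (hc.comp continuous_subtype_val) _
  have hφs : Function.Surjective φ := by
    rintro ⟨y, hy⟩
    obtain ⟨t, ht, hty⟩ := intermediate_value_Icc h01 hc.continuousOn hy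
    exact ⟨⟨t, ht⟩, Subtype.ext hty⟩
  have hq : IsQuotientMap φ := hφ.isClosedMap.isQuotientMap hφ hφs
  obtain ⟨ψ, hψ⟩ : ∃ ψ : Icc (c 0) (c 1) → Icc (0 : ℝ) 1, ∀ y, φ (ψ y) = y :=
    ⟨Function.surjInv hφs, Function.surjInv_eq hφs⟩
  let β : Icc (c 0) (c 1) → X := fun y => g (ψ y)
  have hβφ : β ∘ φ = (Icc (0 : ℝ) 1).domRestrict g := by
    funext t
    have h1 : φ (ψ (φ t)) = φ t := hψ (φ t)
    have h2 : c (ψ (φ t)) = c t := congrArg Subtype.val h1
    exact (key' _ (ψ (φ t)).2 _ t.2).1 h2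
  have hβ : Continuous β := by
    rw [hq.continuous_iff, hβφ]
    exact continuousOn_iff_continuous_domRestrict.1 hg
  have hβinj : Function.Injective β := by
    intro y y' h
    have h1 : c (ψ y) = c (ψ y') := (key' _ (ψ y).2 _ (ψ y').2).2 h
    have h2 : φ (ψ y) = φ (ψ y') := Subtype.ext h1
    rwa [hψ, hψ] at h2
  have hval : ∀ (t : ℝ) (ht : t ∈ Icc (0 : ℝ) 1) (hy : c t ∈ Icc (c 0) (c 1)),
      β ⟨c t, hy⟩ = g t := by
    intro t ht hy
    exact congrFun hβφ ⟨t, ht⟩
  refine ⟨fun τ => β (projIcc (c 0) (c 1) hab.le (c 0 + τ * (c 1 - c 0))), ?_, ?_, ?_, ?_, ?_⟩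
  · refine hβ.comp (continuous_projIcc.comp ?_)
    exact continuous_const.add (continuous_id.mul continuous_const)
  · intro τ hτ τ' hτ' h
    have h1 := hβinj h
    have hmem : ∀ τ ∈ Icc (0 : ℝ) 1, c 0 + τ * (c 1 - c 0) ∈ Icc (c 0) (c 1) := by
      intro τ hτ
      constructor
      · nlinarith [hτ.1, hτ.2]
      · nlinarith [hτ.1, hτ.2]
    rw [projIcc_of_mem _ (hmem τ hτ), projIcc_of_mem _ (hmem τ' hτ')] at h1
    have h2 := congrArg Subtype.val h1
    simp only at h2
    have h3 : c 1 - c 0 ≠ 0 := (sub_pos.2 hab).ne'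
    exact mul_right_cancel₀ h3 (add_left_cancel h2)
  · simp only
    rw [zero_mul, add_zero, projIcc_left]
    exact hval 0 m0 _
  · simp only
    rw [one_mul, add_sub_cancel, projIcc_right]
    exact hval 1 m1 _
  · intro t _
    exact ⟨_, (ψ _).2, rfl⟩

end Pool.Agent.Lib.P98
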