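import Pool.Agent.Lib.P98.ArcA
import Pool.Agent.Lib.P98.ArcB

/-!
Module P98.Arc.  From paths to arcs.
-/

open Set Topology

namespace Pool.Agent.Lib.P98

theorem exists_arc {X : Type*} [MetricSpace X] {F : Set X} {p q : X} (h : JoinedIn F p q)
    (hpq : p ≠ q) : ∃ α : ℝ → X, Continuous α ∧ InjOn α (Icc 0 1) ∧ α 0 = p ∧ α 1 = q ∧
      ∀ t ∈ Icc (0 : ℝ) 1, α t ∈ F := by
  obtain ⟨γ, hγ⟩ := h
  have h0 : γ.extend 0 = p := by simp
  have h1 : γ.extend 1 = q := by simp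
  obtain ⟨g, g1, g2, g3, g4, g5⟩ := exists_monotone_path (f := γ.extend)
    γ.continuous_extend.continuousOn
  obtain ⟨α, a1, a2, a3, a4, a5⟩ := arc_of_monotone g1 (by rw [g2, g3, h0, h1]; exact hpq) g5
  refine ⟨α, a1, a2, by rw [a3, g2, h0], by rw [a4, g3, h1], fun t ht => ?_⟩
  obtain ⟨u, hu, hu'⟩ := a5 t ht
  obtain ⟨v, hv, hv'⟩ := g4 u hu
  rw [← hu', ← hv', Path.extend_apply γ hv]
  exact hγ _

end Pool.Agent.Lib.P98
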