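import Mathlib

/-!
Module P98.ArcA (Mathlib only).  Removing the loops of a path (first half of: a path contains an arc).

PROOF.
(1) Let `𝓕` be the family of the closed `M ⊆ [0,1]` with `0, 1 ∈ M` such that `f a = f b` whenever `a < b` are in `M` and
    `(a,b)` does not meet `M`.  `[0,1] ∈ 𝓕`.  The intersection `M∞` of a nonempty chain in `𝓕` is in `𝓕`: for `a < b` in `M∞` with
    `(a,b)` disjoint from `M∞` and small `η > 0`, by compactness some member `M` misses `[a+η, b-η]`; let `a'` be the last point of `M`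
    in `[a, a+η]` and `b'` the first in `[b-η, b]`: `f a' = f b'`; let `η → 0`.  By Zorn (`zorn_superset_nonempty`) there is a minimal `M`.
(2) If `s < t` in `M`, `f s = f t`, then `(s,t)` does not meet `M`, since `M` minus `(s,t)` is in `𝓕`.
(3) Let `L x = sSup (M ∩ Icc 0 x)`, `g x = f (L x)`.  `L x ∈ M`, `L x ≤ x`, no point of `M` in `(L x, x]`.  `g` is continuous on `[0,1]`: near a point in a gap of `M` it is
    constant; at a point `x ∈ M` use `|L y - x| ≤ |y - x|` for `y ≥ x`, and for `y < x` either `L y → x` (points of `M` below `x` accumulate at `x`) or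
    `x` is the right end of a gap `(a,x)`, where `g = f a = f x`.
(4) If `s ≤ t`, `g s = g t` then `f (L s) = f (L t)`, so `L s = L t` or `(L s, L t)` is a gap of `M`; for `u ∈ [s,t]`, `L u ∈ {L s, L t}`.
-/

open Set Topology

namespace Pool.Agent.Lib.P98

namespace ArcAAux

variable {X : Type*} [MetricSpace X] {f : ℝ → X}

/-- closed sets of parameters such that `f` agrees at the ends of the gaps -/
def Fam (f : ℝ → X) : Set (Set ℝ) :=
  {M | IsClosed M ∧ M ⊆ Icc 0 1 ∧ (0 : ℝ) ∈ M ∧ (1 : ℝ) ∈ M ∧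
    ∀ a ∈ M, ∀ b ∈ M, a < b → (∀ x ∈ M, a < x → x < b → False) → f a = f b}

theorem icc_mem : Icc (0 : ℝ) 1 ∈ Fam f := by
  refine ⟨isClosed_Icc, subset_rfl, ⟨le_rfl, zero_le_one⟩, ⟨zero_le_one, le_rfl⟩, ?_⟩
  intro a ha b hb hab h
  exact (h ((a + b) / 2) ⟨by linarith [ha.1, hb.1], by linarith [ha.2, hb.2]⟩ (by linarith)
    (by linarith)).elim

/-- the last point of `M` up to `x` -/
theorem exists_last {M : Set ℝ} (hM : IsClosed M) {a x : ℝ} (ha : a ∈ M) (hax : a ≤ x) :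
    ∃ l ∈ M, a ≤ l ∧ l ≤ x ∧ ∀ y ∈ M, y ≤ x → y ≤ l := by
  have hK : IsCompact (M ∩ Icc a x) := isCompact_Icc.inter_left hM
  obtain ⟨l, hl, hmax⟩ := hK.exists_isGreatest ⟨a, ha, le_rfl, hax⟩
  refine ⟨l, hl.1, hl.2.1, hl.2.2, fun y hy hyx => ?_⟩
  rcases le_total a y with h | h
  · exact hmax ⟨hy, h, hyx⟩
  · exact h.trans hl.2.1

/-- the first point of `M` from `x` on -/
theorem exists_first {M : Set ℝ} (hM : IsClosed M) {b x : ℝ} (hb : b ∈ M) (hxb : x ≤ b) :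
    ∃ r ∈ M, x ≤ r ∧ r ≤ b ∧ ∀ y ∈ M, x ≤ y → r ≤ y := by
  have hK : IsCompact (M ∩ Icc x b) := isCompact_Icc.inter_left hM
  obtain ⟨r, hr, hmin⟩ := hK.exists_isLeast ⟨b, hb, hxb, le_rfl⟩
  refine ⟨r, hr.1, hr.2.1, hr.2.2, fun y hy hyx => ?_⟩
  rcases le_total y b with h | h
  · exact hmin ⟨hy, hyx, h⟩
  · exact hr.2.2.trans h

theorem chain_mem (hf : ContinuousOn f (Icc 0 1)) {c : Set (Set ℝ)} (hc : c ⊆ Fam f)
    (hch : IsChain (· ⊆ ·) c) (hne : c.Nonempty) : ⋂₀ c ∈ Fam f := by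
  obtain ⟨M₀, hM₀⟩ := hne
  refine ⟨isClosed_sInter fun M hM => (hc hM).1, (sInter_subset_of_mem hM₀).trans (hc hM₀).2.1,
    fun M hM => (hc hM).2.2.1, fun M hM => (hc hM).2.2.2.1, ?_⟩
  intro a ha b hb hab hgap
  by_contra hne
  have hd : 0 < dist (f a) (f b) := dist_pos.2 hne
  have ha1 : a ∈ Icc (0 : ℝ) 1 := (hc hM₀).2.1 (ha M₀ hM₀)
  have hb1 : b ∈ Icc (0 : ℝ) 1 := (hc hM₀).2.1 (hb M₀ hM₀)
  obtain ⟨δ1, hδ1, h1⟩ := Metric.continuousOn_iff.1 hf a ha1 _ (half_pos hd)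
  obtain ⟨δ2, hδ2, h2⟩ := Metric.continuousOn_iff.1 hf b hb1 _ (half_pos hd)
  obtain ⟨η, hη, hη1, hη2, hη3⟩ : ∃ η : ℝ, 0 < η ∧ η < δ1 ∧ η < δ2 ∧ a + η < b - η := by
    refine ⟨min (min (δ1 / 2) (δ2 / 2)) ((b - a) / 3), ?_, ?_, ?_, ?_⟩
    · exact lt_min (lt_min (by linarith) (by linarith)) (by linarith)
    · exact ((min_le_left _ _).trans (min_le_left _ _)).trans_lt (by linarith)
    · exact ((min_le_left _ _).trans (min_le_right _ _)).trans_lt (by linarith)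
    · have := min_le_right (min (δ1 / 2) (δ2 / 2)) ((b - a) / 3)
      linarith
  have hcn : Nonempty c := ⟨⟨M₀, hM₀⟩⟩
  obtain ⟨M, hM⟩ := (isCompact_Icc (a := a + η) (b := b - η)).elim_directed_family_closed
    (fun M : c => (M : Set ℝ)) (fun M => (hc M.2).1) (by
      rw [← sInter_eq_iInter]
      rw [eq_empty_iff_forall_notMem]
      rintro x ⟨hx1, hx2⟩
      exact hgap x hx2 (by linarith [hx1.1]) (by linarith [hx1.2]))
    (by
      intro M N
      rcases hch.total M.2 N.2 with h | h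
      · exact ⟨M, subset_rfl, h⟩
      · exact ⟨N, h, subset_rfl⟩)
  have hMF := hc M.2
  obtain ⟨l, hl, hl1, hl2, hl3⟩ := exists_last hMF.1 (ha M M.2) (x := a + η) (by linarith)
  obtain ⟨r, hr, hr1, hr2, hr3⟩ := exists_first hMF.1 (hb M M.2) (x := b - η) (by linarith)
  have hlr : f l = f r := by
    refine hMF.2.2.2.2 l hl r hr (by linarith) fun x hx hx1 hx2 => ?_
    rcases le_or_gt x (a + η) with h | h
    · have := hl3 x hx h
      linarith
    · rcases le_or_gt (b - η) x with h' | h'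
      · have := hr3 x hx h'
        linarith
      · have : x ∈ Icc (a + η) (b - η) ∩ M := ⟨⟨h.le, h'.le⟩, hx⟩
        rw [hM] at this
        exact this
  have e1 := h1 l (hMF.2.1 hl) (by rw [Real.dist_eq, abs_of_nonneg (by linarith)]; linarith)
  have e2 := h2 r (hMF.2.1 hr) (by rw [Real.dist_eq, abs_of_nonpos (by linarith)]; linarith)
  have e3 := dist_triangle (f a) (f l) (f b)
  rw [hlr, dist_comm (f a) (f r)] at e3
  rw [hlr] at e1
  linarith

theorem minimal_gap {M : Set ℝ} (hM : Minimal (· ∈ Fam f) M) {s t : ℝ} (hs : s ∈ M) (ht : t ∈ M)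
    (hst : s < t) (he : f s = f t) : ∀ x ∈ M, s < x → x < t → False := by
  intro x hx hsx hxt
  have hMF : M ∈ Fam f := hM.prop
  have h01 := hMF.2.1
  have hN : M \ Ioo s t ∈ Fam f := by
    refine ⟨hMF.1.sdiff isOpen_Ioo, sdiff_subset.trans h01, ⟨hMF.2.2.1, fun h => ?_⟩,
      ⟨hMF.2.2.2.1, fun h => ?_⟩, ?_⟩
    · have := (h01 hs).1
      linarith [h.1]
    · have := (h01 ht).2
      linarith [h.2]
    · intro a ha b hb hab hgap
      by_cases hg : ∀ y ∈ M, a < y → y < b → False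
      · exact hMF.2.2.2.2 a ha.1 b hb.1 hab hg
      · push Not at hg
        obtain ⟨y, hy, hay, hyb, -⟩ := hg
        have hy' : y ∈ Ioo s t := by
          by_contra h
          exact hgap y ⟨hy, h⟩ hay hyb
        have e1 : a = s := by
          refine le_antisymm ?_ ?_
          · by_contra h
            exact ha.2 ⟨not_le.1 h, hay.trans hy'.2⟩
          · by_contra h
            exact hgap s ⟨hs, fun h' => lt_irrefl _ h'.1⟩ (not_le.1 h) (hy'.1.trans hyb)
        have e2 : b = t := by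
          refine le_antisymm ?_ ?_
          · by_contra h
            exact hgap t ⟨ht, fun h' => lt_irrefl _ h'.2⟩ (hay.trans hy'.2) (not_le.1 h)
          · by_contra h
            exact hb.2 ⟨hy'.1.trans hyb, not_le.1 h⟩
        rw [e1, e2, he]
  have h := hM.le_of_le hN (sdiff_subset : M \ Ioo s t ⊆ M)
  exact (h hx).2 ⟨hsx, hxt⟩

end ArcAAux

open ArcAAux in
theorem exists_monotone_path {X : Type*} [MetricSpace X] {f : ℝ → X}
    (hf : ContinuousOn f (Icc 0 1)) :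
    ∃ g : ℝ → X, ContinuousOn g (Icc 0 1) ∧ g 0 = f 0 ∧ g 1 = f 1 ∧
      (∀ t ∈ Icc (0 : ℝ) 1, g t ∈ f '' Icc 0 1) ∧
      ∀ s ∈ Icc (0 : ℝ) 1, ∀ t ∈ Icc (0 : ℝ) 1, s ≤ t → g s = g t → ∀ u ∈ Icc s t, g u = g s := by
  obtain ⟨M, -, hM⟩ := zorn_superset_nonempty (Fam f) (fun c hc hch hne =>
    ⟨⋂₀ c, chain_mem hf hc hch hne, fun s hs => sInter_subset_of_mem hs⟩) _ icc_mem
  have hMF : M ∈ Fam f := hM.prop
  obtain ⟨hcl, h01, h0, h1, hgap⟩ := hMF
  have hL : ∀ x : ℝ, ∃ l : ℝ, x ∈ Icc (0 : ℝ) 1 →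
      l ∈ M ∧ 0 ≤ l ∧ l ≤ x ∧ ∀ y ∈ M, y ≤ x → y ≤ l := by
    intro x
    by_cases hx : x ∈ Icc (0 : ℝ) 1
    · obtain ⟨l, hl⟩ := exists_last hcl h0 hx.1
      exact ⟨l, fun _ => hl⟩
    · exact ⟨0, fun h => (hx h).elim⟩
  choose L hL using hL
  have hR : ∀ x ∈ Icc (0 : ℝ) 1, ∃ r ∈ M, x ≤ r ∧ f (L x) = f r ∧ ∀ y ∈ M, x ≤ y → r ≤ y := by
    intro x hx
    obtain ⟨r, hr, hr1, hr2, hr3⟩ := exists_first hcl h1 hx.2
    obtain ⟨l1, l2, l3, l4⟩ := hL x hx
    refine ⟨r, hr, hr1, ?_, hr3⟩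
    rcases eq_or_lt_of_le (l3.trans hr1) with h | h
    · rw [h]
    · refine hgap _ l1 _ hr h fun y hy hy1 hy2 => ?_
      rcases le_total y x with h' | h'
      · have := l4 y hy h'
        linarith
      · have := hr3 y hy h'
        linarith
  refine ⟨fun x => f (L x), ?_, ?_, ?_, ?_, ?_⟩
  · -- continuity
    have hu := isCompact_Icc.uniformContinuousOn_of_continuous hf
    rw [Metric.uniformContinuousOn_iff] at hu
    have key : ∀ ε > 0, ∃ δ > 0, ∀ x ∈ Icc (0 : ℝ) 1, ∀ y ∈ Icc (0 : ℝ) 1, x ≤ y → y - x < δ →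
        dist (f (L x)) (f (L y)) < ε := by
      intro ε hε
      obtain ⟨δ, hδ, h⟩ := hu ε hε
      refine ⟨δ, hδ, fun x hx y hy hxy hd => ?_⟩
      obtain ⟨r, hr, hr1, hr2, hr3⟩ := hR x hx
      obtain ⟨l1, l2, l3, l4⟩ := hL y hy
      obtain ⟨k1, k2, k3, k4⟩ := hL x hx
      rcases le_or_gt r y with h' | h'
      · have h5 := l4 r hr h'
        rw [hr2]
        refine h r (h01 hr) (L y) (h01 l1) ?_
        rw [Real.dist_eq, abs_of_nonpos (by linarith)]
        linarith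
      · have h6 : L y ≤ x := by
          by_contra hh
          have := hr3 (L y) l1 (not_le.1 hh).le
          linarith
        have h7 : L y = L x := le_antisymm (k4 _ l1 h6) (l4 _ k1 (k3.trans hxy))
        rw [h7, dist_self]
        exact hε
    rw [Metric.continuousOn_iff]
    intro x hx ε hε
    obtain ⟨δ, hδ, h⟩ := key ε hε
    refine ⟨δ, hδ, fun y hy hd => ?_⟩
    rw [Real.dist_eq] at hd
    rcases le_total x y with hxy | hxy
    · rw [dist_comm]
      refine h x hx y hy hxy ?_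
      rwa [abs_of_nonneg (by linarith)] at hd
    · refine h y hy x hx hxy ?_
      rw [abs_of_nonpos (by linarith)] at hd
      linarith
  · obtain ⟨l1, l2, l3, l4⟩ := hL 0 ⟨le_rfl, zero_le_one⟩
    simp only
    rw [le_antisymm l3 l2]
  · obtain ⟨l1, l2, l3, l4⟩ := hL 1 ⟨zero_le_one, le_rfl⟩
    simp only
    rw [le_antisymm l3 (l4 1 h1 le_rfl)]
  · intro t ht
    exact ⟨L t, h01 (hL t ht).1, rfl⟩
  · intro s hs t ht hst hgs u hu
    have hu1 : u ∈ Icc (0 : ℝ) 1 := ⟨hs.1.trans hu.1, hu.2.trans ht.2⟩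
    obtain ⟨s1, s2, s3, s4⟩ := hL s hs
    obtain ⟨t1, t2, t3, t4⟩ := hL t ht
    obtain ⟨u1, u2, u3, u4⟩ := hL u hu1
    have a1 : L s ≤ L u := u4 _ s1 (s3.trans hu.1)
    have a2 : L u ≤ L t := t4 _ u1 (u3.trans hu.2)
    simp only at hgs ⊢
    rcases eq_or_lt_of_le a1 with h | h
    · rw [h]
    · rcases eq_or_lt_of_le a2 with h' | h'
      · rw [h', hgs]
      · exact (minimal_gap hM s1 t1 (h.trans h') hgs _ u1 h h').elim

end Pool.Agent.Lib.P98
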