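import Pool.Agent.Lib.P98.Ear
import Pool.Agent.Lib.P98.Arc

/-!
Module P98.Circ.

`circ`: `Y` is open and not empty, `X` is connected with more than one point, so a path connected open subset `N ⊆ Y` contains two points; an arc in
`N` (`exists_arc`) and an ear in `N` (`ear` with `c = 0`, `d = 1`): `lam' = α a`, `lam = α b`, `R 0 t = α (a + t (b - a))`, `R 1` the ear.  The paths are extended from
`[0,1]` to `ℝ` by `Path.extend`.
`hull`: the open connected sets `G` that contain a fixed point of `O` and have closure in `O` form a directed family, whose union is `O` as `O` is connected.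
-/

open Set Topology

namespace Pool.Agent.Lib.P98

namespace CircAux

/-- A small open path connected neighbourhood with closure in `O`. -/
theorem exists_nbhd {X : Type*} [MetricSpace X] [LocallyPathConnectedSpace X] {O : Set X}
    (hO : IsOpen O) {x : X} (hx : x ∈ O) :
    ∃ N : Set X, IsOpen N ∧ x ∈ N ∧ IsPathConnected N ∧ closure N ⊆ O := by
  obtain ⟨ε, hε, hball⟩ := Metric.nhds_basis_closedBall.mem_iff.mp (hO.mem_nhds hx)
  obtain ⟨N, ⟨hNo, hxN, hNp⟩, hN⟩ :=
    (isOpen_isPathConnected_basis x).mem_iff.mp (Metric.closedBall_mem_nhds x hε)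
  exact ⟨N, hNo, hxN, hNp, (closure_minimal hN Metric.isClosed_closedBall).trans hball⟩

end CircAux

theorem circ {X : Type*} [MetricSpace X] [LocallyPathConnectedSpace X] [ConnectedSpace X]
    [Nontrivial X] (hno : ¬ HasArcCore X) {Y : Set X} (hY : IsOpen Y) (hne : Y.Nonempty) :
    ∃ (lam lam' : X) (R : Fin 2 → ℝ → X), lam ≠ lam' ∧ (∀ a, Continuous (R a)) ∧
      (∀ a, R a 0 = lam' ∧ R a 1 = lam) ∧ (∀ a, ∀ t ∈ Icc (0 : ℝ) 1, R a t ∈ Y) ∧
      ∀ t ∈ Icc (0 : ℝ) 1, ∀ t' ∈ Icc (0 : ℝ) 1, R 0 t = R 1 t' → R 0 t = lam ∨ R 0 t = lam' := by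
  obtain ⟨y, hy⟩ := hne
  obtain ⟨N, hNo, hyN, hNp, hNY⟩ := CircAux.exists_nbhd hY hy
  have hNY' : N ⊆ Y := subset_closure.trans hNY
  have hN2 : ∃ q ∈ N, y ≠ q := by
    by_contra hcon
    push Not at hcon
    have hN1 : N = {y} := by
      ext z
      constructor
      · intro hz
        exact (hcon z hz).symm
      · intro hz
        rw [mem_singleton_iff.mp hz]
        exact hyN
    have hcl : IsClopen N := ⟨by rw [hN1]; exact isClosed_singleton, hNo⟩
    have huniv : N = univ := hcl.eq_univ ⟨y, hyN⟩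
    obtain ⟨z, hz⟩ := exists_ne y
    have : z ∈ N := by rw [huniv]; exact mem_univ z
    rw [hN1] at this
    exact hz (mem_singleton_iff.mp this)
  obtain ⟨q, hqN, hyq⟩ := hN2
  obtain ⟨α, hα, hi, hα0, hα1, hαN⟩ := exists_arc (hNp.joinedIn y hyN q hqN) hyq
  obtain ⟨a, b, ha, hab, hb, hj⟩ := ear hno hα hi le_rfl zero_lt_one le_rfl hNo hαN
  obtain ⟨γ, hγ⟩ := hj
  refine ⟨α b, α a, ![fun t => α (a + t * (b - a)), γ.extend], ?_, ?_, ?_, ?_, ?_⟩
  · intro h
    have := hi ⟨(ha.trans hab).le, hb.le⟩ ⟨ha.le, (hab.trans hb).le⟩ h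
    exact hab.ne' this
  · intro i
    fin_cases i
    · exact hα.comp (by fun_prop)
    · exact γ.continuous_extend
  · intro i
    fin_cases i
    · simp
    · simp
  · intro i t ht
    fin_cases i
    · refine hNY' (hαN _ ⟨?_, ?_⟩)
      · have := mul_nonneg ht.1 (sub_nonneg.mpr hab.le)
        linarith
      · have := mul_le_mul_of_nonneg_right ht.2 (sub_nonneg.mpr hab.le)
        linarith
    · change γ.extend t ∈ Y
      rw [Path.extend_apply γ ht]
      exact hNY' (hγ _).1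
  · intro t ht t' ht' h
    change α (a + t * (b - a)) = γ.extend t' at h
    change α (a + t * (b - a)) = α b ∨ α (a + t * (b - a)) = α a
    rcases eq_or_lt_of_le ht.1 with h0 | h0
    · right
      rw [← h0]
      simp
    rcases eq_or_lt_of_le ht.2 with h1 | h1
    · left
      rw [h1]
      simp
    exfalso
    rw [Path.extend_apply γ ht'] at h
    refine (hγ ⟨t', ht'⟩).2 ⟨a + t * (b - a), ⟨?_, ?_⟩, h⟩
    · have := mul_pos h0 (sub_pos.mpr hab)
      linarith
    · have := mul_lt_mul_of_pos_right h1 (sub_pos.mpr hab)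
      linarith

theorem hull {X : Type*} [MetricSpace X] [CompactSpace X] [LocallyPathConnectedSpace X]
    {O L : Set X} (hO : IsOpen O) (hOc : IsConnected O) (hL : IsCompact L) (hLO : L ⊆ O) :
    ∃ G : Set X, IsOpen G ∧ IsConnected G ∧ L ⊆ G ∧ closure G ⊆ O := by
  obtain ⟨x0, hx0⟩ := hOc.nonempty
  let ι := {G : Set X // IsOpen G ∧ IsConnected G ∧ x0 ∈ G ∧ closure G ⊆ O}
  obtain ⟨N0, hN0o, hx0N, hN0p, hN0O⟩ := CircAux.exists_nbhd hO hx0
  have : Nonempty ι := ⟨⟨N0, hN0o, hN0p.isConnected, hx0N, hN0O⟩⟩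
  have hcov : O ⊆ ⋃ G : ι, G.1 := by
    refine hOc.isPreconnected.subset_of_closure_inter_subset
      (isOpen_iUnion fun G => G.2.1) ⟨x0, hx0, mem_iUnion.mpr
        ⟨⟨N0, hN0o, hN0p.isConnected, hx0N, hN0O⟩, hx0N⟩⟩ ?_
    rintro x ⟨hxc, hxO⟩
    obtain ⟨N, hNo, hxN, hNp, hNO⟩ := CircAux.exists_nbhd hO hxO
    obtain ⟨z, hzN, hz⟩ := mem_closure_iff.mp hxc N hNo hxN
    obtain ⟨G, hzG⟩ := mem_iUnion.mp hz
    refine mem_iUnion.mpr ⟨⟨G.1 ∪ N, G.2.1.union hNo, ?_, Or.inl G.2.2.2.1, ?_⟩, Or.inr hxN⟩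
    · exact G.2.2.1.union ⟨z, hzG, hzN⟩ hNp.isConnected
    · rw [closure_union]
      exact union_subset G.2.2.2.2 hNO
  obtain ⟨G, hG⟩ := hL.elim_directed_cover (fun G : ι => G.1) (fun G => G.2.1)
    (hLO.trans hcov) (by
      intro G H
      refine ⟨⟨G.1 ∪ H.1, G.2.1.union H.2.1, ?_, Or.inl G.2.2.2.1, ?_⟩, subset_union_left,
        subset_union_right⟩
      · exact G.2.2.1.union ⟨x0, G.2.2.2.1, H.2.2.2.1⟩ H.2.2.1
      · rw [closure_union]
        exact union_subset G.2.2.2.2 H.2.2.2.2)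
  exact ⟨G.1, G.2.1, G.2.2.1, hG, G.2.2.2.2⟩

end Pool.Agent.Lib.P98
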