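import Pool.Agent.Lib.P98.Dim

/-!
Module P98.Cover.  The cover by two disjoint families.

PROOF.  Cover `X` by finitely many open sets `U_j` of diameter `< ε` (balls of radius `ε/3`) with totally disconnected frontier; `D = ⋃ frontier U_j` is
closed and totally disconnected.  Every `x ∉ D` lies in a connected open set `connectedComponentIn Dᶜ x` (open by local connectedness), which is contained in some
`U_j` (it meets `U_j` and misses its frontier), so it has diameter `< ε`.  By `td_cells` there are disjoint open sets `N_l` of diameter `< ε` covering `D`;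
`N = ⋃ N_l`; `connectedComponentIn N x` is open, connected and contained in some `N_l`.  By compactness finitely many of the sets
`connectedComponentIn Dᶜ x`, `x ∉ D`, `connectedComponentIn N x`, `x ∈ N`, cover `X`; take a finite set of such sets (as a `Finset (Set X)`, so that distinct sets of one
family are disjoint) and index by `Fin`; discard the sets of the second family that are contained in the union of the first (they are not needed for the cover).
-/

open Set Topology

namespace Pool.Agent.Lib.P98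

namespace CoverAux

theorem subset_of_not_frontier {X : Type*} [TopologicalSpace X] {C U : Set X}
    (hC : IsPreconnected C) (hU : IsOpen U) (hf : ∀ x ∈ C, x ∉ frontier U)
    (hm : (C ∩ U).Nonempty) : C ⊆ U := by
  refine hC.subset_left_of_subset_union (v := (closure U)ᶜ) hU isClosed_closure.isOpen_compl
    ?_ ?_ hm
  · rw [disjoint_compl_right_iff_subset]
    exact subset_closure
  · intro x hx
    by_cases h : x ∈ closure U
    · left
      by_contra h'
      exact hf x hx ⟨h, by rwa [hU.interior_eq]⟩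
    · right
      exact h

theorem comp_eq {X : Type*} [TopologicalSpace X] {F : Set X} {x y z : X}
    (hx : z ∈ connectedComponentIn F x) (hy : z ∈ connectedComponentIn F y) :
    connectedComponentIn F x = connectedComponentIn F y := by
  rw [connectedComponentIn_eq hx, connectedComponentIn_eq hy]

theorem enum {X : Type*} (A : Finset (Set X)) : ∃ (m : ℕ) (O : Fin m → Set X),
    (∀ i, O i ∈ A) ∧ (∀ i j, i ≠ j → O i ≠ O j) ∧ ∀ S ∈ A, ∃ i, O i = S := by
  refine ⟨A.card, fun i => (A.equivFin.symm i : Set X), fun i => (A.equivFin.symm i).2, ?_, ?_⟩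
  · intro i j hij h
    exact hij (A.equivFin.symm.injective (Subtype.ext h))
  · intro S hS
    exact ⟨A.equivFin ⟨S, hS⟩, by simp⟩

end CoverAux

open CoverAux in
theorem exists_cover {X : Type*} [MetricSpace X] [CompactSpace X] [LocallyConnectedSpace X]
    (hd : DimLeOne X) {ε : ℝ} (hε : 0 < ε) :
    ∃ (m n : ℕ) (O : Fin m → Set X) (W : Fin n → Set X),
      (∀ i, IsOpen (O i) ∧ IsConnected (O i) ∧ ∀ x ∈ O i, ∀ y ∈ O i, dist x y < ε) ∧
      (∀ k, IsOpen (W k) ∧ IsConnected (W k) ∧ ∀ x ∈ W k, ∀ y ∈ W k, dist x y < ε) ∧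
      (∀ i j, i ≠ j → Disjoint (O i) (O j)) ∧ (∀ k l, k ≠ l → Disjoint (W k) (W l)) ∧
      (∀ x, (∃ i, x ∈ O i) ∨ ∃ k, x ∈ W k) ∧ ∀ k, ∃ x ∈ W k, ∀ i, x ∉ O i := by
  classical
  choose U hUo hxU hUb hUf using fun x : X => hd x (ε / 3) (by positivity)
  obtain ⟨s, hs⟩ := isCompact_univ.elim_finite_subcover U hUo
    (fun x _ => mem_iUnion.2 ⟨x, hxU x⟩)
  have hsc : ∀ x : X, ∃ j ∈ s, x ∈ U j := by
    intro x
    have h1 := hs (mem_univ x)
    simpa using h1
  set D : Set X := ⋃ j ∈ s, frontier (U j) with hD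
  have hDc : IsClosed D := s.finite_toSet.isClosed_biUnion (fun j _ => isClosed_frontier)
  have hDt : IsTotallyDisconnected D :=
    td_biUnion s (fun j => frontier (U j)) (fun _ _ => isClosed_frontier) (fun j _ => hUf j)
  obtain ⟨n0, Nc, hNo, hNd, hDN⟩ := td_cells hDc hDt hε
  set N : Set X := ⋃ i, Nc i with hN
  have hNopen : IsOpen N := isOpen_iUnion fun i => (hNo i).1
  -- the sets of the first family
  have h1 : ∀ x ∉ D, IsOpen (connectedComponentIn Dᶜ x) ∧
      IsConnected (connectedComponentIn Dᶜ x) ∧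
      ∀ y ∈ connectedComponentIn Dᶜ x, ∀ z ∈ connectedComponentIn Dᶜ x, dist y z < ε := by
    intro x hx
    refine ⟨hDc.isOpen_compl.connectedComponentIn, isConnected_connectedComponentIn_iff.2 hx, ?_⟩
    obtain ⟨j, hj, hxj⟩ := hsc x
    have h2 : connectedComponentIn Dᶜ x ⊆ U j := by
      refine subset_of_not_frontier isPreconnected_connectedComponentIn (hUo j) ?_
        ⟨x, mem_connectedComponentIn hx, hxj⟩
      intro y hy hyf
      exact connectedComponentIn_subset _ _ hy (mem_biUnion hj hyf)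
    intro y hy z hz
    have hy' := hUb j (h2 hy)
    have hz' := hUb j (h2 hz)
    rw [Metric.mem_ball] at hy' hz'
    have h3 := dist_triangle_right y z j
    linarith
  -- the sets of the second family
  have h2 : ∀ x ∈ N, IsOpen (connectedComponentIn N x) ∧
      IsConnected (connectedComponentIn N x) ∧
      ∀ y ∈ connectedComponentIn N x, ∀ z ∈ connectedComponentIn N x, dist y z < ε := by
    intro x hx
    refine ⟨hNopen.connectedComponentIn, isConnected_connectedComponentIn_iff.2 hx, ?_⟩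
    obtain ⟨l, hl⟩ := mem_iUnion.1 hx
    have h3 : connectedComponentIn N x ⊆ Nc l := by
      refine isPreconnected_connectedComponentIn.subset_left_of_subset_union (hNo l).1
        (isOpen_biUnion (s := {i : Fin n0 | i ≠ l}) fun i _ => (hNo i).1) ?_ ?_
        ⟨x, mem_connectedComponentIn hx, hl⟩
      · rw [disjoint_iUnion₂_right]
        intro i hi
        exact hNd l i (fun h => hi h.symm)
      · intro y hy
        obtain ⟨i, hi⟩ := mem_iUnion.1 (connectedComponentIn_subset _ _ hy)
        by_cases hil : i = l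
        · left
          rwa [← hil]
        · right
          exact mem_biUnion (x := i) hil hi
    intro y hy z hz
    exact (hNo l).2 y (h3 hy) z (h3 hz)
  -- finite subcover
  obtain ⟨t, ht⟩ := isCompact_univ.elim_finite_subcover
    (fun x : X => if x ∈ D then connectedComponentIn N x else connectedComponentIn Dᶜ x)
    (fun x => by
      by_cases hx : x ∈ D
      · simp only [if_pos hx]
        exact (h2 x (hDN hx)).1
      · simp only [if_neg hx]
        exact (h1 x hx).1)
    (fun x _ => by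
      refine mem_iUnion.2 ⟨x, ?_⟩
      by_cases hx : x ∈ D
      · simp only [if_pos hx]
        exact mem_connectedComponentIn (hDN hx)
      · simp only [if_neg hx]
        exact mem_connectedComponentIn hx)
  have htc : ∀ x : X, ∃ y ∈ t,
      (y ∉ D ∧ x ∈ connectedComponentIn Dᶜ y) ∨ (y ∈ D ∧ x ∈ connectedComponentIn N y) := by
    intro x
    have h3 := ht (mem_univ x)
    rw [mem_iUnion₂] at h3
    obtain ⟨y, hy, hxy⟩ := h3
    refine ⟨y, hy, ?_⟩
    by_cases hyD : y ∈ D
    · simp only [if_pos hyD] at hxy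
      exact Or.inr ⟨hyD, hxy⟩
    · simp only [if_neg hyD] at hxy
      exact Or.inl ⟨hyD, hxy⟩
  set A : Finset (Set X) :=
    (t.filter fun x => x ∉ D).image fun x => connectedComponentIn Dᶜ x with hA
  set B : Finset (Set X) :=
    ((t.filter fun x => x ∈ D).image fun x => connectedComponentIn N x).filter
      fun S => ∃ x ∈ S, ∀ S' ∈ A, x ∉ S' with hB
  have hAm : ∀ S ∈ A, ∃ x, x ∉ D ∧ S = connectedComponentIn Dᶜ x := by
    intro S hS
    rw [hA, Finset.mem_image] at hS
    obtain ⟨x, hx, rfl⟩ := hS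
    exact ⟨x, (Finset.mem_filter.1 hx).2, rfl⟩
  have hBm : ∀ S ∈ B, (∃ x, x ∈ N ∧ S = connectedComponentIn N x) ∧
      ∃ x ∈ S, ∀ S' ∈ A, x ∉ S' := by
    intro S hS
    rw [hB, Finset.mem_filter, Finset.mem_image] at hS
    obtain ⟨⟨x, hx, rfl⟩, h3⟩ := hS
    exact ⟨⟨x, hDN (Finset.mem_filter.1 hx).2, rfl⟩, h3⟩
  obtain ⟨m, O, hO1, hO2, hO3⟩ := enum A
  obtain ⟨n, W, hW1, hW2, hW3⟩ := enum B
  refine ⟨m, n, O, W, ?_, ?_, ?_, ?_, ?_, ?_⟩
  · intro i
    obtain ⟨x, hx, e⟩ := hAm _ (hO1 i)
    rw [e]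
    exact h1 x hx
  · intro k
    obtain ⟨⟨x, hx, e⟩, -⟩ := hBm _ (hW1 k)
    rw [e]
    exact h2 x hx
  · intro i j hij
    obtain ⟨x, hx, e⟩ := hAm _ (hO1 i)
    obtain ⟨y, hy, e'⟩ := hAm _ (hO1 j)
    rw [Set.disjoint_left]
    intro z hz hz'
    refine hO2 i j hij ?_
    rw [e] at hz ⊢
    rw [e'] at hz' ⊢
    exact comp_eq hz hz'
  · intro i j hij
    obtain ⟨⟨x, hx, e⟩, -⟩ := hBm _ (hW1 i)
    obtain ⟨⟨y, hy, e'⟩, -⟩ := hBm _ (hW1 j)
    rw [Set.disjoint_left]
    intro z hz hz'
    refine hW2 i j hij ?_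
    rw [e] at hz ⊢
    rw [e'] at hz' ⊢
    exact comp_eq hz hz'
  · intro x
    by_cases hxA : ∃ S ∈ A, x ∈ S
    · obtain ⟨S, hS, hxS⟩ := hxA
      obtain ⟨i, hi⟩ := hO3 S hS
      exact Or.inl ⟨i, by rwa [hi]⟩
    · obtain ⟨y, hy, h3⟩ := htc x
      rcases h3 with ⟨hyD, hxy⟩ | ⟨hyD, hxy⟩
      · exact absurd ⟨_, Finset.mem_image.2 ⟨y, Finset.mem_filter.2 ⟨hy, hyD⟩, rfl⟩, hxy⟩ hxA
      · have h4 : connectedComponentIn N y ∈ B := by
          rw [hB, Finset.mem_filter]
          refine ⟨Finset.mem_image.2 ⟨y, Finset.mem_filter.2 ⟨hy, hyD⟩, rfl⟩, x, hxy, ?_⟩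
          intro S' hS' hx'
          exact hxA ⟨S', hS', hx'⟩
        obtain ⟨k, hk⟩ := hW3 _ h4
        exact Or.inr ⟨k, by rwa [hk]⟩
  · intro k
    obtain ⟨-, x, hx, h3⟩ := hBm _ (hW1 k)
    exact ⟨x, hx, fun i => h3 _ (hO1 i)⟩

end Pool.Agent.Lib.P98
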