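import Mathlib

/-!
# P98: property (F) for locally connected continua of dimension one (MP_98cb65_gt)

Definitions.  The plan of the proof is in `/team-store/r18_ulam.md`.
-/

open Set Topology

namespace Pool.Agent.Lib.P98

/-- All iterates of `T` move every point by less than `B`. -/
def DispBelow {X : Type*} [MetricSpace X] (T : X → X) (B : ℝ) : Prop :=
  ∀ n : ℕ, 1 ≤ n → ∀ x : X, dist (T^[n] x) x < B

/-- Property (F): for some `B > 0`, every continuous self-map of `X` all of whose iterates move
every point by less than `B` has a fixed point. -/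
def PropF (X : Type*) [MetricSpace X] : Prop :=
  ∃ B : ℝ, 0 < B ∧ ∀ T : X → X, Continuous T → DispBelow T B → ∃ x, T x = x

/-- An open arc with point attachments: `s` is continuous on `(0,1)` with values in the open set
`U`, `r` is continuous on `U`, `r (s c) = c`, and the points of `U` other than `s c` which `r`
sends to `c` form an open set. -/
def IsArcCore {X : Type*} [MetricSpace X] (U : Set X) (r : X → ℝ) (s : ℝ → X) : Prop :=
  IsOpen U ∧ ContinuousOn r U ∧ ContinuousOn s (Ioo 0 1) ∧
    ∀ c ∈ Ioo (0 : ℝ) 1, s c ∈ U ∧ r (s c) = c ∧ IsOpen {x | x ∈ U ∧ r x = c ∧ x ≠ s c}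

/-- `X` has an open arc with point attachments. -/
def HasArcCore (X : Type*) [MetricSpace X] : Prop :=
  ∃ (U : Set X) (r : X → ℝ) (s : ℝ → X), IsArcCore U r s

/-- Dimension at most one: every point has arbitrarily small open neighbourhoods with totally
disconnected boundary. -/
def DimLeOne (X : Type*) [MetricSpace X] : Prop :=
  ∀ x : X, ∀ ε : ℝ, 0 < ε → ∃ U : Set X, IsOpen U ∧ x ∈ U ∧ U ⊆ Metric.ball x ε ∧
    IsTotallyDisconnected (frontier U)

end Pool.Agent.Lib.P98
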