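import Mathlib

/-!
Module P98.DimA (Mathlib only).  Totally disconnected closed sets in compact metric spaces.

`td_split`: the subtype `D` is a compact totally disconnected space, so the closed set `D ∩ P` has a
clopen neighbourhood `Z` off `Q`; `D2 = Z` and `D1 = D \ Z`.
`td_cells`: a finite partition of `D` into small clopen sets, and disjoint thickenings of them.
-/

open Set Topology

namespace Pool.Agent.Lib.P98

theorem td_split {X : Type*} [MetricSpace X] [CompactSpace X] {D P Q : Set X} (hD : IsClosed D)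
    (htd : IsTotallyDisconnected D) (hP : IsClosed P) (hQ : IsClosed Q)
    (h : ∀ x ∈ D, x ∈ P → x ∉ Q) :
    ∃ D1 D2 : Set X, IsClosed D1 ∧ IsClosed D2 ∧ D1 ∪ D2 = D ∧ Disjoint D1 D2 ∧
      Disjoint D1 P ∧ Disjoint D2 Q := by
  have : CompactSpace D := isCompact_iff_compactSpace.mp hD.isCompact
  have : TotallyDisconnectedSpace D := totallyDisconnectedSpace_subtype_iff.mpr htd
  obtain ⟨C, hC, hPC, hCQ⟩ := exists_clopen_of_closed_subset_open
    (X := D) (Z := Subtype.val ⁻¹' P) (U := Subtype.val ⁻¹' Qᶜ)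
    (hP.preimage continuous_subtype_val) (hQ.isOpen_compl.preimage continuous_subtype_val)
    (fun x hx => h x.1 x.2 hx)
  refine ⟨Subtype.val '' Cᶜ, Subtype.val '' C, ?_, ?_, ?_, ?_, ?_, ?_⟩
  · exact (hC.compl.isClosed.isCompact.image continuous_subtype_val).isClosed
  · exact (hC.isClosed.isCompact.image continuous_subtype_val).isClosed
  · rw [← Set.image_union, Set.compl_union_self, Set.image_univ, Subtype.range_val]
  · exact (Set.disjoint_image_iff Subtype.val_injective).mpr disjoint_compl_left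
  · rw [Set.disjoint_left]
    rintro x ⟨y, hy, rfl⟩ hyP
    exact hy (hPC hyP)
  · rw [Set.disjoint_left]
    rintro x ⟨y, hy, rfl⟩ hyQ
    exact hCQ hy hyQ

theorem td_cells {X : Type*} [MetricSpace X] [CompactSpace X] {D : Set X} (hD : IsClosed D)
    (htd : IsTotallyDisconnected D) {ε : ℝ} (hε : 0 < ε) :
    ∃ (n : ℕ) (U : Fin n → Set X), (∀ i, IsOpen (U i) ∧ ∀ x ∈ U i, ∀ y ∈ U i, dist x y < ε) ∧
      (∀ i j, i ≠ j → Disjoint (U i) (U j)) ∧ D ⊆ ⋃ i, U i := by
  have : CompactSpace D := isCompact_iff_compactSpace.mp hD.isCompact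
  have : TotallyDisconnectedSpace D := totallyDisconnectedSpace_subtype_iff.mpr htd
  have hcov : TopologicalSpace.IsOpenCover
      (fun x : D => (⟨Metric.ball x (ε / 6), Metric.isOpen_ball⟩ : TopologicalSpace.Opens D)) := by
    refine TopologicalSpace.IsOpenCover.of_sets _ ?_
    exact Set.eq_univ_of_forall fun x =>
      Set.mem_iUnion.mpr ⟨x, Metric.mem_ball_self (by linarith)⟩
  obtain ⟨n, W, hW, hcW, hdW⟩ := hcov.exists_finite_nonempty_disjoint_clopen_cover
  have hcomp : ∀ i, IsCompact (Subtype.val '' (W i : Set D)) := fun i =>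
    (W i).isClopen.isClosed.isCompact.image continuous_subtype_val
  have hdisj : ∀ i j, i ≠ j →
      Disjoint (Subtype.val '' (W i : Set D)) (Subtype.val '' (W j : Set D)) := by
    intro i j hij
    refine (Set.disjoint_image_iff Subtype.val_injective).mpr ?_
    exact TopologicalSpace.Clopens.coe_disjoint.mpr (hdW hij)
  have hev : ∀ i j, i ≠ j → ∀ᶠ δ in 𝓝[>] (0 : ℝ),
      Disjoint (Metric.thickening δ (Subtype.val '' (W i : Set D)))
        (Metric.thickening δ (Subtype.val '' (W j : Set D))) := by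
    intro i j hij
    obtain ⟨δ, hδ, hδd⟩ := (hdisj i j hij).exists_thickenings (hcomp i) (hcomp j).isClosed
    filter_upwards [Ioo_mem_nhdsGT hδ] with r hr
    exact hδd.mono (Metric.thickening_mono hr.2.le _) (Metric.thickening_mono hr.2.le _)
  have hev2 : ∀ᶠ δ in 𝓝[>] (0 : ℝ), ∀ i j, i ≠ j →
      Disjoint (Metric.thickening δ (Subtype.val '' (W i : Set D)))
        (Metric.thickening δ (Subtype.val '' (W j : Set D))) := by
    rw [Filter.eventually_all]
    intro i
    rw [Filter.eventually_all]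
    intro j
    by_cases hij : i = j
    · exact Filter.Eventually.of_forall fun _ h => absurd hij h
    · exact (hev i j hij).mono fun _ h _ => h
  obtain ⟨δ, hδ, hδε⟩ := (hev2.and (Ioo_mem_nhdsGT (show (0 : ℝ) < ε / 3 by linarith))).exists
  refine ⟨n, fun i => Metric.thickening δ (Subtype.val '' (W i : Set D)), ?_, hδ, ?_⟩
  · intro i
    refine ⟨Metric.isOpen_thickening, ?_⟩
    intro x hx y hy
    obtain ⟨a, ⟨a', ha', rfl⟩, hxa⟩ := Metric.mem_thickening_iff.mp hx
    obtain ⟨b, ⟨b', hb', rfl⟩, hyb⟩ := Metric.mem_thickening_iff.mp hy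
    obtain ⟨_, c, hc⟩ := hW i
    have h1 : dist a' c < ε / 6 := hc ha'
    have h2 : dist b' c < ε / 6 := hc hb'
    have h3 : dist (a' : X) (b' : X) < ε / 3 := by
      have h4 : dist a' b' ≤ dist a' c + dist b' c := dist_triangle_right _ _ _
      have h5 : dist (a' : X) (b' : X) = dist a' b' := rfl
      linarith
    have h6 : dist x y ≤ dist x a' + dist (a' : X) b' + dist (b' : X) y := dist_triangle4 _ _ _ _
    have h7 : dist (b' : X) y = dist y b' := dist_comm _ _
    have h8 := hδε.2
    linarith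
  · intro x hx
    obtain ⟨i, hi⟩ := Set.mem_iUnion.mp (hcW (Set.mem_univ (⟨x, hx⟩ : D)))
    exact Set.mem_iUnion.mpr ⟨i, Metric.self_subset_thickening hδε.1 _ ⟨⟨x, hx⟩, hi, rfl⟩⟩

end Pool.Agent.Lib.P98
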