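import Pool.Agent.Lib.P98.Defs
import Pool.Agent.Lib.P98.DimA

/-!
Module P98.Dim.  Unions of totally disconnected closed sets; separators.

PROOF.  `td_union`: let `t ⊆ A ∪ B` be preconnected, `x ≠ y` in `t`.  By `td_split` for `A` with `P = {x}`, `Q = {y}` (closed balls) write `A = A1 ∪ A2`, `A1 ∌ x`... In detail: choose
`A = A1 ⊔ A2` closed, `y ∉ A1`... so that `x ∉ A2`, `y ∉ A1`; then `B = B1 ⊔ B2` closed with `B1` disjoint from `A2 ∪ {y}` and `B2` disjoint from `A1 ∪ {x}`: `td_split` for `D = B`,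
`P = A2 ∪ {y}`, `Q = A1 ∪ {x}` (disjoint closed sets).  `A1 ∪ B1 ∪ ({x})` and `A2 ∪ B2 ∪ ({y})` are disjoint closed sets that cover `t`, and both meet `t`: contradiction.
`td_biUnion`: induction on `s`.
`sep`: cover `K` by finitely many open sets `U` from `DimLeOne` contained in balls whose closure is disjoint from `L`; the frontier of the union lies in the
union of the frontiers (`frontier_union_subset`, ...), which is totally disconnected by `td_biUnion`.
-/

open Set Topology

namespace Pool.Agent.Lib.P98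

theorem td_union {X : Type*} [MetricSpace X] [CompactSpace X] {A B : Set X} (hA : IsClosed A)
    (hB : IsClosed B) (tA : IsTotallyDisconnected A) (tB : IsTotallyDisconnected B) :
    IsTotallyDisconnected (A ∪ B) := by
  intro t ht hpc x hx y hy
  by_contra hxy
  obtain ⟨A1, A2, cA1, cA2, uA, dA, dx, dy⟩ := td_split (P := {x}) (Q := {y}) hA tA
    isClosed_singleton isClosed_singleton (by
      intro z _ h1 h2
      rw [mem_singleton_iff] at h1 h2
      exact hxy (h1.symm.trans h2))
  rw [disjoint_singleton_right] at dx dy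
  obtain ⟨B1, B2, cB1, cB2, uB, dB, d1, d2⟩ := td_split (P := A2 ∪ {x}) (Q := A1 ∪ {y}) hB tB
    (cA2.union isClosed_singleton) (cA1.union isClosed_singleton) (by
      rintro z _ (h1 | h1) (h2 | h2)
      · exact disjoint_left.1 dA h2 h1
      · rw [mem_singleton_iff] at h2
        rw [h2] at h1
        exact dy h1
      · rw [mem_singleton_iff] at h1
        rw [h1] at h2
        exact dx h2
      · rw [mem_singleton_iff] at h1 h2
        exact hxy (h1.symm.trans h2))
  rw [disjoint_union_right, disjoint_singleton_right] at d1 d2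
  have hcov : t ⊆ (A1 ∪ B1 ∪ {y}) ∪ (A2 ∪ B2 ∪ {x}) := by
    intro z hz
    rcases ht hz with h | h
    · rw [← uA] at h
      rcases h with h | h
      · exact Or.inl (Or.inl (Or.inl h))
      · exact Or.inr (Or.inl (Or.inl h))
    · rw [← uB] at h
      rcases h with h | h
      · exact Or.inl (Or.inl (Or.inr h))
      · exact Or.inr (Or.inl (Or.inr h))
  obtain ⟨z, _, hz1, hz2⟩ := isPreconnected_closed_iff.1 hpc _ _
    ((cA1.union cB1).union isClosed_singleton) ((cA2.union cB2).union isClosed_singleton) hcov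
    ⟨y, hy, Or.inr rfl⟩ ⟨x, hx, Or.inr rfl⟩
  rcases hz1 with (h1 | h1) | h1 <;> rcases hz2 with (h2 | h2) | h2
  · exact disjoint_left.1 dA h1 h2
  · exact disjoint_left.1 d2.1 h2 h1
  · rw [mem_singleton_iff] at h2
    rw [h2] at h1
    exact dx h1
  · exact disjoint_left.1 d1.1 h1 h2
  · exact disjoint_left.1 dB h1 h2
  · rw [mem_singleton_iff] at h2
    rw [h2] at h1
    exact d1.2 h1
  · rw [mem_singleton_iff] at h1
    rw [h1] at h2
    exact dy h2
  · rw [mem_singleton_iff] at h1
    rw [h1] at h2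
    exact d2.2 h2
  · rw [mem_singleton_iff] at h1 h2
    exact hxy (h2.symm.trans h1)

theorem td_biUnion {X : Type*} [MetricSpace X] [CompactSpace X] {ι : Type*} (s : Finset ι)
    (D : ι → Set X) (hD : ∀ i ∈ s, IsClosed (D i)) (htd : ∀ i ∈ s, IsTotallyDisconnected (D i)) :
    IsTotallyDisconnected (⋃ i ∈ s, D i) := by
  classical
  induction s using Finset.induction_on with
  | empty =>
    have h1 : (⋃ i ∈ (∅ : Finset ι), D i) = ∅ := by simp
    rw [h1]
    exact isTotallyDisconnected_empty
  | insert a s _ ih =>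
    rw [Finset.set_biUnion_insert]
    refine td_union (hD a (Finset.mem_insert_self a s)) ?_ (htd a (Finset.mem_insert_self a s))
      (ih (fun i hi => hD i (Finset.mem_insert_of_mem hi))
        (fun i hi => htd i (Finset.mem_insert_of_mem hi)))
    exact s.finite_toSet.isClosed_biUnion fun i hi => hD i (Finset.mem_insert_of_mem hi)

theorem sep {X : Type*} [MetricSpace X] [CompactSpace X] (hd : DimLeOne X) {K L : Set X}
    (hK : IsClosed K) (hL : IsClosed L) (hKL : Disjoint K L) :
    ∃ V : Set X, IsOpen V ∧ K ⊆ V ∧ Disjoint (closure V) L ∧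
      IsTotallyDisconnected (frontier V) := by
  have h1 : ∀ x ∈ K, ∃ U : Set X, IsOpen U ∧ x ∈ U ∧ Disjoint (closure U) L ∧
      IsTotallyDisconnected (frontier U) := by
    intro x hx
    have hxL : x ∈ Lᶜ := disjoint_left.1 hKL hx
    obtain ⟨ε, hε, hεL⟩ := Metric.isOpen_iff.1 hL.isOpen_compl x hxL
    obtain ⟨U, hU, hxU, hUb, htd⟩ := hd x (ε / 2) (by linarith)
    refine ⟨U, hU, hxU, ?_, htd⟩
    rw [disjoint_left]
    intro z hz hzL
    have h2 : z ∈ Metric.closedBall x (ε / 2) :=
      (closure_mono hUb).trans Metric.closure_ball_subset_closedBall hz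
    have h3 : z ∈ Metric.ball x ε := by
      rw [Metric.mem_closedBall] at h2
      rw [Metric.mem_ball]
      linarith
    exact hεL h3 hzL
  choose U hUo hxU hUL htd using h1
  obtain ⟨t, ht⟩ := hK.isCompact.elim_nhds_subcover' U
    (fun x hx => (hUo x hx).mem_nhds (hxU x hx))
  have hcl : closure (⋃ x ∈ t, U (x : K) x.2) = ⋃ x ∈ t, closure (U (x : K) x.2) :=
    t.finite_toSet.closure_biUnion _
  have hop : IsOpen (⋃ x ∈ t, U (x : K) x.2) :=
    isOpen_biUnion fun x _ => hUo x x.2
  refine ⟨⋃ x ∈ t, U (x : K) x.2, hop, ht, ?_, ?_⟩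
  · rw [hcl, disjoint_left]
    intro z hz hzL
    obtain ⟨x, _, hzx⟩ := mem_iUnion₂.1 hz
    exact disjoint_left.1 (hUL x x.2) hzx hzL
  · have h2 : frontier (⋃ x ∈ t, U (x : K) x.2) ⊆ ⋃ x ∈ t, frontier (U (x : K) x.2) := by
      intro z hz
      rw [frontier, hop.interior_eq, hcl] at hz
      obtain ⟨x, hxt, hzx⟩ := mem_iUnion₂.1 hz.1
      refine mem_iUnion₂.2 ⟨x, hxt, ?_⟩
      rw [frontier, (hUo x x.2).interior_eq]
      exact ⟨hzx, fun h => hz.2 (mem_iUnion₂.2 ⟨x, hxt, h⟩)⟩
    have h3 := td_biUnion t (fun x : K => frontier (U (x : K) x.2)) (fun x _ => isClosed_frontier)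
      (fun x _ => htd x x.2)
    intro u hu hpc
    exact h3 u (hu.trans h2) hpc

end Pool.Agent.Lib.P98
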