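import Pool.Agent.Lib.P98.Defs

/-!
Module P98.Ear.  Ears of arcs.

PROOF.  `first_hit`: first parameter at which the path is in `A`.
`ear`: by contradiction, see (1) in `/team-store/r18_ulam.md`.  `U = {x | ∃ t ∈ Ioo c d, JoinedIn (G \ (α '' Icc c d \ {α t})) x (α t)}`,
`r x` is this `t` (unique), rescaled to `(0,1)`, `s τ = α (c + τ (d - c))`.
-/

open Set Topology

namespace Pool.Agent.Lib.P98

theorem first_hit {X : Type*} [MetricSpace X] {F A : Set X} (hA : IsClosed A) {y z : X}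
    (h : JoinedIn F y z) (hz : z ∈ A) : ∃ a ∈ A, JoinedIn (F \ (A \ {a})) y a := by
  obtain ⟨γ, hγ⟩ := h
  have hcont : Continuous (fun t : ℝ => γ.extend t) := γ.continuous_extend
  set S : Set ℝ := {t | t ∈ Icc (0 : ℝ) 1 ∧ γ.extend t ∈ A} with hS
  have hScl : IsClosed S := (isClosed_Icc).inter (hA.preimage hcont)
  have hSne : S.Nonempty := ⟨1, ⟨zero_le_one, le_rfl⟩, by
    rw [Path.extend_one]; exact hz⟩
  have hSbd : BddBelow S := ⟨0, fun t ht => ht.1.1⟩
  have hmem : sInf S ∈ S := hScl.csInf_mem hSne hSbd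
  obtain ⟨⟨h0, h1⟩, hAmem⟩ := hmem
  set t0 : ℝ := sInf S with ht0
  refine ⟨γ.extend t0, hAmem, ?_⟩
  have hF : ∀ t : ℝ, γ.extend t ∈ F := by
    intro t
    have h2 : γ.extend t ∈ range γ := by
      rw [← Path.extend_range γ]; exact ⟨t, rfl⟩
    obtain ⟨u, hu⟩ := h2
    rw [← hu]; exact hγ u
  refine JoinedIn.ofLine (f := fun t : ℝ => γ.extend (t * t0)) ?_ ?_ ?_ ?_
  · exact (hcont.comp (continuous_id.mul continuous_const)).continuousOn
  · simp
  · simp
  · rintro _ ⟨t, ht, rfl⟩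
    refine ⟨hF _, ?_⟩
    rintro ⟨hA1, hne⟩
    apply hne
    have ht2 : t * t0 ∈ S := by
      refine ⟨⟨mul_nonneg ht.1 h0, ?_⟩, hA1⟩
      exact mul_le_one₀ ht.2 h0 h1
    have hle : t0 ≤ t * t0 := csInf_le hSbd ht2
    have hle2 : t * t0 ≤ t0 := by
      have := mul_le_mul_of_nonneg_right ht.2 h0
      simpa using this
    show γ.extend (t * t0) = γ.extend t0
    rw [le_antisymm hle2 hle]

namespace EarAux

variable {X : Type*} [MetricSpace X]

/-- `x` is attached to the arc at the parameter `t`. -/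
def Att (α : ℝ → X) (c d : ℝ) (G : Set X) (x : X) (t : ℝ) : Prop :=
  t ∈ Ioo c d ∧ JoinedIn (G \ (α '' Icc c d \ {α t})) x (α t)

theorem att_unique {α : ℝ → X} {c d : ℝ} {G : Set X} (hi : InjOn α (Icc c d))
    (hcon : ∀ a b, c < a → a < b → b < d → ¬ JoinedIn (G \ α '' Ioo a b) (α a) (α b))
    {x : X} {t u : ℝ} (ht : Att α c d G x t) (hu : Att α c d G x u) : t = u := by
  have key : ∀ t u : ℝ, t < u → Att α c d G x t → Att α c d G x u → False := by
    intro t u htu ht hu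
    refine hcon t u ht.1.1 htu hu.1.2 ?_
    have h1 : ∀ v : ℝ, v ∈ Icc c d → v ∉ Ioo t u →
        G \ (α '' Icc c d \ {α v}) ⊆ G \ α '' Ioo t u := by
      intro v hv hvn y hy
      refine ⟨hy.1, ?_⟩
      rintro ⟨w, hw, rfl⟩
      have hwI : w ∈ Icc c d := ⟨(ht.1.1.trans hw.1).le, (hw.2.trans hu.1.2).le⟩
      apply hy.2
      refine ⟨⟨w, hwI, rfl⟩, ?_⟩
      intro hEq
      have : w = v := hi hwI hv hEq
      exact hvn (this ▸ hw)
    have h2 := (ht.2.mono (h1 t ⟨ht.1.1.le, ht.1.2.le⟩ (fun h => lt_irrefl _ h.1))).symm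
    have h3 := hu.2.mono (h1 u ⟨hu.1.1.le, hu.1.2.le⟩ (fun h => lt_irrefl _ h.2))
    exact h2.trans h3
  rcases lt_trichotomy t u with h | h | h
  · exact (key t u h ht hu).elim
  · exact h
  · exact (key u t h hu ht).elim

theorem att_self {α : ℝ → X} {c d : ℝ} {G : Set X} (hαG : ∀ t ∈ Icc c d, α t ∈ G) {t : ℝ}
    (ht : t ∈ Ioo c d) : Att α c d G (α t) t := by
  refine ⟨ht, JoinedIn.refl ⟨hαG t ⟨ht.1.le, ht.2.le⟩, ?_⟩⟩
  rintro ⟨_, h⟩
  exact h rfl

theorem att_mem {α : ℝ → X} {c d : ℝ} {G : Set X} {x : X} {t : ℝ} (h : Att α c d G x t) :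
    x ∈ G ∧ (x ∉ α '' Icc c d ∨ x = α t) := by
  have h1 := h.2.source_mem
  refine ⟨h1.1, ?_⟩
  by_cases hx : x ∈ α '' Icc c d
  · right
    by_contra hne
    exact h1.2 ⟨hx, hne⟩
  · exact Or.inl hx

variable [LocallyPathConnectedSpace X]

/-- Off the arc, `Att` is locally constant. -/
theorem nhd_off {α : ℝ → X} {c d : ℝ} {G : Set X} (hG : IsOpen G)
    (hcl : IsClosed (α '' Icc c d)) {x : X} {t : ℝ} (h : Att α c d G x t)
    (hx : x ∉ α '' Icc c d) :
    ∀ᶠ y in 𝓝 x, y ∉ α '' Icc c d ∧ Att α c d G y t := by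
  have hO : (G \ α '' Icc c d) ∈ 𝓝 x :=
    (hG.sdiff hcl).mem_nhds ⟨(att_mem h).1, hx⟩
  filter_upwards [pathComponentIn_mem_nhds hO] with y hy
  have hy' : JoinedIn (G \ α '' Icc c d) x y := hy
  refine ⟨hy'.target_mem.2, h.1, ?_⟩
  have h1 : G \ α '' Icc c d ⊆ G \ (α '' Icc c d \ {α t}) :=
    fun z hz => ⟨hz.1, fun h2 => hz.2 h2.1⟩
  exact ((hy'.mono h1).symm).trans h.2

/-- Near a point of the arc all points are attached near this point. -/
theorem nhd_on {α : ℝ → X} {c d : ℝ} {G : Set X} (hG : IsOpen G)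
    (hcl : IsClosed (α '' Icc c d)) (hi : InjOn α (Icc c d)) (hαG : ∀ t ∈ Icc c d, α t ∈ G)
    {t : ℝ} (ht : t ∈ Ioo c d) {V : Set X} (hV : V ∈ 𝓝 (α t)) :
    ∀ᶠ y in 𝓝 (α t), ∃ u, Att α c d G y u ∧ α u ∈ V := by
  have htI : t ∈ Icc c d := ⟨ht.1.le, ht.2.le⟩
  have hcd : c < d := ht.1.trans ht.2
  have hcI : c ∈ Icc c d := ⟨le_rfl, hcd.le⟩
  have hdI : d ∈ Icc c d := ⟨hcd.le, le_rfl⟩
  have hc : α t ≠ α c := fun h => (ht.1.ne' (hi htI hcI h))
  have hd : α t ≠ α d := fun h => (ht.2.ne (hi htI hdI h))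
  have h1 : V ∩ (G ∩ ({α c}ᶜ ∩ {α d}ᶜ)) ∈ 𝓝 (α t) := by
    refine Filter.inter_mem hV (Filter.inter_mem (hG.mem_nhds (hαG t htI)) (Filter.inter_mem ?_ ?_))
    · exact isOpen_compl_singleton.mem_nhds hc
    · exact isOpen_compl_singleton.mem_nhds hd
  filter_upwards [pathComponentIn_mem_nhds h1] with y hy
  have hy' : JoinedIn (V ∩ (G ∩ ({α c}ᶜ ∩ {α d}ᶜ))) (α t) y := hy
  obtain ⟨a, ha, hja⟩ := first_hit hcl hy'.symm ⟨t, htI, rfl⟩
  obtain ⟨u, huI, rfl⟩ := ha
  have hmem := hja.target_mem.1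
  refine ⟨u, ⟨⟨?_, ?_⟩, ?_⟩, hmem.1⟩
  · refine lt_of_le_of_ne huI.1 ?_
    rintro rfl
    exact hmem.2.2.1 rfl
  · refine lt_of_le_of_ne huI.2 ?_
    rintro rfl
    exact hmem.2.2.2 rfl
  · exact hja.mono (fun z hz => ⟨hz.1.2.1, hz.2⟩)

end EarAux

open EarAux

theorem ear {X : Type*} [MetricSpace X] [LocallyPathConnectedSpace X] (hno : ¬ HasArcCore X)
    {α : ℝ → X} (hα : Continuous α) (hi : InjOn α (Icc 0 1)) {c d : ℝ} (hc : 0 ≤ c) (hcd : c < d)
    (hd : d ≤ 1) {G : Set X} (hG : IsOpen G) (hαG : ∀ t ∈ Icc c d, α t ∈ G) :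
    ∃ a b, c < a ∧ a < b ∧ b < d ∧ JoinedIn (G \ α '' Ioo a b) (α a) (α b) := by
  classical
  by_contra hcontra
  have hcon : ∀ a b, c < a → a < b → b < d → ¬ JoinedIn (G \ α '' Ioo a b) (α a) (α b) :=
    fun a b h1 h2 h3 h4 => hcontra ⟨a, b, h1, h2, h3, h4⟩
  have hi' : InjOn α (Icc c d) := hi.mono (Icc_subset_Icc hc hd)
  have hcl : IsClosed (α '' Icc c d) := (isCompact_Icc.image hα).isClosed
  have hdc : 0 < d - c := sub_pos.2 hcd
  -- the parameter of attachment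
  set T : X → ℝ := fun x => if h : ∃ t, Att α c d G x t then h.choose else c with hT
  have hTeq : ∀ {x : X} {t : ℝ}, Att α c d G x t → T x = t := by
    intro x t h
    have hex : ∃ t, Att α c d G x t := ⟨t, h⟩
    have h1 : T x = hex.choose := by rw [hT]; simp only [dif_pos hex]
    rw [h1]
    exact att_unique hi' hcon hex.choose_spec h
  set U : Set X := {x | ∃ t, Att α c d G x t} with hU
  -- the eventual description
  have hev : ∀ x ∈ U, ∀ ε : ℝ, 0 < ε → ∀ᶠ y in 𝓝 x, y ∈ U ∧ dist (T y) (T x) < ε := by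
    rintro x ⟨t, ht⟩ ε hε
    have hTx := hTeq ht
    by_cases hx : x ∈ α '' Icc c d
    · have hxt : x = α t := by
        rcases (att_mem ht).2 with h | h
        · exact absurd hx h
        · exact h
      subst hxt
      have hK : IsClosed (α '' (Icc c d \ Ioo (t - ε) (t + ε))) :=
        ((isCompact_Icc.diff isOpen_Ioo).image hα).isClosed
      have hV : (α '' (Icc c d \ Ioo (t - ε) (t + ε)))ᶜ ∈ 𝓝 (α t) := by
        refine hK.isOpen_compl.mem_nhds ?_
        rintro ⟨u, hu, hEq⟩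
        have : u = t := hi' hu.1 ⟨ht.1.1.le, ht.1.2.le⟩ hEq
        apply hu.2
        rw [this]
        exact ⟨by linarith, by linarith⟩
      filter_upwards [nhd_on hG hcl hi' hαG ht.1 hV] with y hy
      obtain ⟨u, hu, huV⟩ := hy
      refine ⟨⟨u, hu⟩, ?_⟩
      rw [hTeq hu, hTx]
      have hmem : u ∈ Ioo (t - ε) (t + ε) := by
        by_contra hnot
        exact huV ⟨u, ⟨⟨hu.1.1.le, hu.1.2.le⟩, hnot⟩, rfl⟩
      rw [Real.dist_eq, abs_lt]
      exact ⟨by linarith [hmem.1], by linarith [hmem.2]⟩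
    · filter_upwards [nhd_off hG hcl ht hx] with y hy
      refine ⟨⟨t, hy.2⟩, ?_⟩
      rw [hTeq hy.2, hTx, dist_self]
      exact hε
  apply hno
  refine ⟨U, fun x => (T x - c) / (d - c), fun τ => α (c + τ * (d - c)), ?_, ?_, ?_, ?_⟩
  · rw [isOpen_iff_mem_nhds]
    intro x hx
    filter_upwards [hev x hx 1 one_pos] with y hy
    exact hy.1
  · have hTc : ContinuousOn T U := by
      intro x hx
      refine ContinuousAt.continuousWithinAt ?_
      rw [Metric.continuousAt_iff']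
      intro ε hε
      filter_upwards [hev x hx ε hε] with y hy
      exact hy.2
    exact (hTc.sub continuousOn_const).div_const _
  · exact (hα.comp (continuous_const.add (continuous_id.mul continuous_const))).continuousOn
  · intro τ hτ
    have hmem : c + τ * (d - c) ∈ Ioo c d := by
      constructor
      · have := mul_pos hτ.1 hdc
        linarith
      · have h1 : τ * (d - c) < 1 * (d - c) := mul_lt_mul_of_pos_right hτ.2 hdc
        linarith
    have hatt := att_self hαG hmem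
    refine ⟨⟨_, hatt⟩, ?_, ?_⟩
    · show (T (α (c + τ * (d - c))) - c) / (d - c) = τ
      rw [hTeq hatt]
      field_simp
      ring
    · rw [isOpen_iff_mem_nhds]
      rintro x ⟨⟨t, ht⟩, hr, hne⟩
      have hTx := hTeq ht
      have ht' : t = c + τ * (d - c) := by
        have h1 : (T x - c) / (d - c) = τ := hr
        rw [hTx, div_eq_iff hdc.ne'] at h1
        linarith
      have hx : x ∉ α '' Icc c d := by
        rcases (att_mem ht).2 with h | h
        · exact h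
        · exact absurd (h.trans (by rw [ht'])) hne
      filter_upwards [nhd_off hG hcl ht hx] with y hy
      refine ⟨⟨t, hy.2⟩, ?_, ?_⟩
      · show (T y - c) / (d - c) = τ
        rw [hTeq hy.2, ht', div_eq_iff hdc.ne']
        ring
      · intro h
        apply hy.1
        rw [h]
        exact ⟨_, ⟨hmem.1.le, hmem.2.le⟩, rfl⟩

end Pool.Agent.Lib.P98
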