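import Pool.Agent.Lib.P98.Ear
import Pool.Agent.Lib.P98.Arc

/-!
Module P98.Exit.  The exit lemma, (5) in `/team-store/r18_ulam.md`.

PROOF.  Arc `α` in `W` from `z` to `μ` (`exists_arc`; `W` is path connected).  `t* = sSup {t ∈ [0,1] | α t ∈ closure G}`: `α t* ∈ closure G ⊆ O`, `t* < 1`,
`α t ∉ closure G` for `t > t*`.  Choose `c > t*` with `α [t*, c] ⊆ O`.  `ear` on `[t*, c]` with the open set `W ∩ O`: `t* < a < b < c` and a path `γ` in
`W ∩ O` from `α a` to `α b` off `α (a,b)`.  `N` open path connected, `α t* ∈ N ⊆ W ∩ O`, `N` disjoint from the compact set `α [a,1]`.  `G ∪ N` is path connected (`α t* ∈ closure G`, so `N`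
meets `G`); `β` a path in `G ∪ N` from `lam` to `α t*`.  `L1 = β ∪ α [t*, a]` (compact), `L2 = α [b,1]`.
`P 0 = β` then `α [t*, 1]`; `P 1 = β`, `α [t*, a]`, `γ`, `α [b,1]` (concatenations, `Path.trans`, `Path.extend`).
A common point of `P 0` and `P 1` is in `β`, `α [t*,a]` or `α [b,1]`: the open piece `α (a,b)` of `P 0` meets none of `α [t*,a]`, `γ`, `α [b,1]`.
-/

open Set Topology

namespace Pool.Agent.Lib.P98

namespace ExitAux

theorem seg {X : Type*} [TopologicalSpace X] {α : ℝ → X} (hα : Continuous α) {x y : ℝ}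
    (h : x ≤ y) : JoinedIn (α '' Icc x y) (α x) (α y) := by
  have h1 : IsPathConnected (Icc x y) := (convex_Icc x y).isPathConnected ⟨x, left_mem_Icc.2 h⟩
  exact (h1.image hα).joinedIn _ (mem_image_of_mem _ (left_mem_Icc.2 h)) _
    (mem_image_of_mem _ (right_mem_Icc.2 h))

theorem to_fun {X : Type*} [TopologicalSpace X] {S : Set X} {p q : X} (h : JoinedIn S p q) :
    ∃ f : ℝ → X, Continuous f ∧ f 0 = p ∧ f 1 = q ∧ ∀ t ∈ Icc (0 : ℝ) 1, f t ∈ S := by
  obtain ⟨γ, hγ⟩ := h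
  refine ⟨γ.extend, γ.continuous_extend, by simp, by simp, fun t ht => ?_⟩
  rw [Path.extend_apply γ ht]
  exact hγ _

end ExitAux

open ExitAux in
theorem exit {X : Type*} [MetricSpace X] [LocallyPathConnectedSpace X] (hno : ¬ HasArcCore X)
    {G O W : Set X} (hG : IsOpen G) (hGc : IsConnected G) (hO : IsOpen O) (hGO : closure G ⊆ O)
    (hW : IsOpen W) (hWc : IsConnected W) {lam z μ : X} (hlam : lam ∈ G) (hzG : z ∈ G)
    (hzW : z ∈ W) (hμ : μ ∈ W) (hμG : μ ∉ closure G) :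
    ∃ (L1 L2 : Set X) (P : Fin 2 → ℝ → X), IsCompact L1 ∧ IsCompact L2 ∧ L1 ⊆ O ∧
      L1 ⊆ closure G ∪ W ∧ L2 ⊆ W ∧ Disjoint (closure G) L2 ∧ Disjoint L1 L2 ∧ μ ∈ L2 ∧
      (∀ a, Continuous (P a)) ∧ (∀ a, P a 0 = lam ∧ P a 1 = μ) ∧
      (∀ a, ∀ t ∈ Icc (0 : ℝ) 1, P a t ∈ G ∪ W) ∧
      ∀ t ∈ Icc (0 : ℝ) 1, ∀ t' ∈ Icc (0 : ℝ) 1, P 0 t = P 1 t' → P 0 t ∈ L1 ∪ L2 := by
  have hzμ : z ≠ μ := fun h => hμG (h ▸ subset_closure hzG)
  have hWp : IsPathConnected W := hW.isConnected_iff_isPathConnected.1 hWc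
  have hGp : IsPathConnected G := hG.isConnected_iff_isPathConnected.1 hGc
  obtain ⟨α, hα, hinj, hα0, hα1, hαW⟩ := exists_arc (hWp.joinedIn z hzW μ hμ) hzμ
  -- the last parameter in the closure of `G`
  set S : Set ℝ := Icc (0 : ℝ) 1 ∩ α ⁻¹' closure G with hS
  have hSc : IsCompact S := isCompact_Icc.inter_right (isClosed_closure.preimage hα)
  have hSn : S.Nonempty := ⟨0, ⟨le_rfl, zero_le_one⟩, by
    change α 0 ∈ closure G
    rw [hα0]
    exact subset_closure hzG⟩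
  obtain ⟨s, hsS, hsmax⟩ := hSc.exists_isGreatest hSn
  have hs01 : s ∈ Icc (0 : ℝ) 1 := hsS.1
  have hsG : α s ∈ closure G := hsS.2
  have hs1 : s < 1 := by
    refine lt_of_le_of_ne hs01.2 fun h => hμG ?_
    rw [← hα1, ← h]
    exact hsG
  have hafter : ∀ t, s < t → t ≤ 1 → α t ∉ closure G := by
    intro t h1 h2 h3
    exact absurd (hsmax ⟨⟨hs01.1.trans h1.le, h2⟩, h3⟩) (not_le.2 h1)
  -- a short piece in `O`
  obtain ⟨ε, hε, hεO⟩ : ∃ ε > 0, ∀ t, dist t s < ε → α t ∈ O :=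
    Metric.mem_nhds_iff.1 (hα.continuousAt.preimage_mem_nhds (hO.mem_nhds (hGO hsG)))
  set c : ℝ := min 1 (s + ε / 2) with hc
  have hsc : s < c := lt_min hs1 (by linarith)
  have hc1 : c ≤ 1 := min_le_left _ _
  have hcO : ∀ t ∈ Icc s c, α t ∈ O := by
    intro t ht
    refine hεO t ?_
    rw [Real.dist_eq, abs_of_nonneg (by linarith [ht.1])]
    have := min_le_right 1 (s + ε / 2)
    have := ht.2
    linarith
  have hcW : ∀ t ∈ Icc s c, α t ∈ W := fun t ht =>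
    hαW t ⟨hs01.1.trans ht.1, ht.2.trans hc1⟩
  obtain ⟨a, b, hsa, hab, hbc, hear⟩ := ear hno hα hinj hs01.1 hsc hc1 (hW.inter hO)
    (fun t ht => ⟨hcW t ht, hcO t ht⟩)
  obtain ⟨γ, hγ⟩ := hear
  have hb1 : b ≤ 1 := hbc.le.trans hc1
  have ha1 : a ≤ 1 := hab.le.trans hb1
  -- the neighbourhood `N`
  have hKc : IsClosed (α '' Icc a 1) := (isCompact_Icc.image hα).isClosed
  have hV : IsOpen ((W ∩ O) \ α '' Icc a 1) := (hW.inter hO).sdiff hKc
  have hsV : α s ∈ (W ∩ O) \ α '' Icc a 1 := by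
    refine ⟨⟨hcW s ⟨le_rfl, hsc.le⟩, hcO s ⟨le_rfl, hsc.le⟩⟩, ?_⟩
    rintro ⟨t, ht, hts⟩
    have := hinj ⟨(hs01.1.trans hsa.le).trans ht.1, ht.2⟩ hs01 hts
    linarith [ht.1]
  set N : Set X := pathComponentIn ((W ∩ O) \ α '' Icc a 1) (α s) with hN
  have hNo : IsOpen N := hV.pathComponentIn _
  have hNs : α s ∈ N := mem_pathComponentIn_self hsV
  have hNV : N ⊆ (W ∩ O) \ α '' Icc a 1 := pathComponentIn_subset
  have hNp : IsPathConnected N := isPathConnected_pathComponentIn hsV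
  have hNG : (G ∩ N).Nonempty := by
    obtain ⟨x, hx1, hx2⟩ := mem_closure_iff.1 hsG N hNo hNs
    exact ⟨x, hx2, hx1⟩
  have hGN : IsPathConnected (G ∪ N) := hGp.union hNp hNG
  obtain ⟨β, hβ⟩ := hGN.joinedIn lam (Or.inl hlam) (α s) (Or.inr hNs)
  have hβO : range β ⊆ O := by
    rintro x ⟨t, rfl⟩
    rcases hβ t with h | h
    · exact hGO (subset_closure h)
    · exact (hNV h).1.2
  have hβG : range β ⊆ G ∪ W := by
    rintro x ⟨t, rfl⟩
    rcases hβ t with h | h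
    · exact Or.inl h
    · exact Or.inr (hNV h).1.1
  have hγW : range γ ⊆ W := by
    rintro x ⟨t, rfl⟩
    exact (hγ t).1.1
  -- the two paths
  have jβ : JoinedIn (range β) lam (α s) := ⟨β, fun t => mem_range_self t⟩
  have jγ : JoinedIn (range γ) (α a) (α b) := ⟨γ, fun t => mem_range_self t⟩
  have j0 : JoinedIn (range β ∪ α '' Icc s 1) lam μ := by
    have h2 := seg hα hs1.le
    rw [hα1] at h2
    exact (jβ.mono subset_union_left).trans (h2.mono subset_union_right)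
  have j1 : JoinedIn (range β ∪ (α '' Icc s a ∪ (range γ ∪ α '' Icc b 1))) lam μ := by
    have h2 := seg hα hsa.le
    have h4 := seg hα hb1
    rw [hα1] at h4
    refine (jβ.mono subset_union_left).trans ((h2.mono ?_).trans ((jγ.mono ?_).trans (h4.mono ?_)))
    · exact subset_union_left.trans subset_union_right
    · exact subset_union_left.trans (subset_union_right.trans subset_union_right)
    · exact subset_union_right.trans (subset_union_right.trans subset_union_right)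
  obtain ⟨P0, c0, p00, p01, m0⟩ := to_fun j0
  obtain ⟨P1, c1, p10, p11, m1⟩ := to_fun j1
  refine ⟨range β ∪ α '' Icc s a, α '' Icc b 1, ![P0, P1],
    (isCompact_range β.continuous).union (isCompact_Icc.image hα), isCompact_Icc.image hα,
    ?_, ?_, ?_, ?_, ?_, ?_, ?_, ?_, ?_, ?_⟩
  · refine union_subset hβO ?_
    rintro x ⟨t, ht, rfl⟩
    exact hcO t ⟨ht.1, ht.2.trans (hab.le.trans hbc.le)⟩
  · refine union_subset (hβG.trans (union_subset_union_left _ subset_closure)) ?_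
    rintro x ⟨t, ht, rfl⟩
    exact Or.inr (hcW t ⟨ht.1, ht.2.trans (hab.le.trans hbc.le)⟩)
  · rintro x ⟨t, ht, rfl⟩
    exact hαW t ⟨(hs01.1.trans hsa.le).trans (hab.le.trans ht.1), ht.2⟩
  · rw [Set.disjoint_left]
    rintro x hx ⟨t, ht, rfl⟩
    exact hafter t (lt_of_lt_of_le (hsa.trans hab) ht.1) ht.2 hx
  · rw [Set.disjoint_left]
    rintro x hx ⟨t, ht, rfl⟩
    rcases hx with hx | hx
    · obtain ⟨u, hu⟩ := hx
      rcases hβ u with h | h
      · rw [hu] at h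
        exact hafter t (lt_of_lt_of_le (hsa.trans hab) ht.1) ht.2 (subset_closure h)
      · rw [hu] at h
        exact (hNV h).2 ⟨t, ⟨hab.le.trans ht.1, ht.2⟩, rfl⟩
    · obtain ⟨u, hu, hut⟩ := hx
      have := hinj ⟨hs01.1.trans hu.1, hu.2.trans ha1⟩
        ⟨(hs01.1.trans hsa.le).trans (hab.le.trans ht.1), ht.2⟩ hut
      have h1 := hu.2
      have h2 := ht.1
      linarith
  · exact ⟨1, ⟨hb1, le_rfl⟩, hα1⟩
  · intro i
    fin_cases i
    · exact c0
    · exact c1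
  · intro i
    fin_cases i
    · exact ⟨p00, p01⟩
    · exact ⟨p10, p11⟩
  · intro i t ht
    have hαs : ∀ x y : ℝ, s ≤ x → y ≤ 1 → α '' Icc x y ⊆ G ∪ W := by
      rintro x y hx hy w ⟨u, hu, rfl⟩
      exact Or.inr (hαW u ⟨hs01.1.trans (hx.trans hu.1), hu.2.trans hy⟩)
    fin_cases i
    · change P0 t ∈ G ∪ W
      rcases m0 t ht with h | h
      · exact hβG h
      · exact hαs s 1 le_rfl le_rfl h
    · change P1 t ∈ G ∪ W
      rcases m1 t ht with h | h | h | h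
      · exact hβG h
      · exact hαs s a le_rfl ha1 h
      · exact Or.inr (hγW h)
      · exact hαs b 1 (hsa.le.trans hab.le) le_rfl h
  · intro t ht t' ht' he
    change P0 t = P1 t' at he
    change P0 t ∈ _
    have h0 := m0 t ht
    have h1 := m1 t' ht'
    rw [← he] at h1
    rcases h0 with h | h
    · exact Or.inl (Or.inl h)
    rcases h1 with h' | h' | h' | h'
    · exact Or.inl (Or.inl h')
    · exact Or.inl (Or.inr h')
    · obtain ⟨u, hu, hu'⟩ := h
      obtain ⟨v, hv⟩ := h'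
      by_cases hua : u ≤ a
      · exact Or.inl (Or.inr ⟨u, ⟨hu.1, hua⟩, hu'⟩)
      by_cases hub : b ≤ u
      · exact Or.inr ⟨u, ⟨hub, hu.2⟩, hu'⟩
      exfalso
      refine (hγ v).2 ⟨u, ⟨not_le.1 hua, not_le.1 hub⟩, ?_⟩
      rw [hu', hv]
    · exact Or.inr h'

end Pool.Agent.Lib.P98
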