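import Mathlib

/-!
Module P98.Glue (Mathlib only).  The gluing lemma.

`X` is the disjoint union of finitely many open sets `G c` and finitely many closed sets `S j`; near `S j` there are only points of
`S j`, `G (a j)` and `G (b j)`.  Then there is a continuous `T` with `T = τ c` on `G c` off small neighbourhoods of the `S j`, which runs
along the path `P j` from `τ (a j)` to `τ (b j)` across `S j`.

PROOF.  Let `0 < ρ < r` be so small that the thickenings of radius `2ρ` of the `S j` (`S j` nonempty) are pairwise disjoint and contained in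
`S j ∪ G (a j) ∪ G (b j)` (compactness).  For `x` with `infDist x (S j) ≤ ρ`, `S j` nonempty, let
`T x = P j (1/2 - infDist x (S j) / (2ρ))` if `x ∈ G (a j)` and `P j (1/2 + infDist x (S j) / (2ρ))` if `x ∉ G (a j)`; otherwise `T x = τ c` with
`x ∈ G c`.  Continuity: finite closed cover (`LocallyFinite.continuous`) by the sets `{x ∈ G c ∪ ⋃ S | all infDist ≥ ρ}`,
`{x ∈ G (a j) ∪ S j | infDist x (S j) ≤ ρ}`, `{x ∈ G (b j) ∪ S j | infDist x (S j) ≤ ρ}`, or by continuity at every point.
-/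

open Set Topology

namespace Pool.Agent.Lib.P98

namespace GlueAux

open Classical in
/-- the parameter on the path -/
noncomputable def th {X : Type*} [MetricSpace X] (A S : Set X) (ρ : ℝ) (x : X) : ℝ :=
  if x ∈ A then 1 / 2 - min (Metric.infDist x S) ρ / (2 * ρ)
  else 1 / 2 + min (Metric.infDist x S) ρ / (2 * ρ)

variable {X : Type*} [MetricSpace X]

theorem mm_bd {S : Set X} {ρ : ℝ} (hρ : 0 < ρ) (x : X) :
    0 ≤ min (Metric.infDist x S) ρ / (2 * ρ) ∧ min (Metric.infDist x S) ρ / (2 * ρ) ≤ 1 / 2 := by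
  have h0 : 0 ≤ min (Metric.infDist x S) ρ := le_min Metric.infDist_nonneg hρ.le
  refine ⟨by positivity, ?_⟩
  rw [div_le_iff₀ (by positivity)]
  have h1 : min (Metric.infDist x S) ρ ≤ ρ := min_le_right _ _
  linarith

theorem th_mem {A S : Set X} {ρ : ℝ} (hρ : 0 < ρ) (x : X) : th A S ρ x ∈ Icc (0 : ℝ) 1 := by
  have h := mm_bd (S := S) hρ x
  unfold th
  by_cases hx : x ∈ A
  · rw [if_pos hx]
    exact ⟨by linarith [h.1, h.2], by linarith [h.1, h.2]⟩
  · rw [if_neg hx]
    exact ⟨by linarith [h.1, h.2], by linarith [h.1, h.2]⟩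

theorem mm_cont (S : Set X) (ρ : ℝ) :
    Continuous fun x => min (Metric.infDist x S) ρ / (2 * ρ) :=
  ((Metric.continuous_infDist_pt S).min continuous_const).div_const _

theorem th_cont {A B S : Set X} (hA : IsOpen A) (hB : IsOpen B) (hAB : Disjoint A B) {ρ : ℝ}
    (hρ : 0 < ρ) {x : X} (hx : x ∈ S ∪ A ∪ B) : ContinuousAt (th A S ρ) x := by
  have hc := mm_cont S ρ
  rcases hx with (hx | hx) | hx
  · have h0 : min (Metric.infDist x S) ρ / (2 * ρ) = 0 := by
      rw [Metric.infDist_zero_of_mem hx, min_eq_left hρ.le, zero_div]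
    have hthx : th A S ρ x = 1 / 2 := by
      unfold th
      rw [h0]
      simp
    have ht : Filter.Tendsto (fun y => min (Metric.infDist y S) ρ / (2 * ρ)) (𝓝 x) (𝓝 0) := by
      have h1 := hc.continuousAt (x := x)
      rw [ContinuousAt, h0] at h1
      exact h1
    rw [ContinuousAt, hthx, tendsto_iff_dist_tendsto_zero]
    refine ht.congr fun y => ?_
    have hb := (mm_bd (S := S) hρ y).1
    rw [Real.dist_eq]
    unfold th
    by_cases hy : y ∈ A
    · rw [if_pos hy]
      have e : 1 / 2 - min (Metric.infDist y S) ρ / (2 * ρ) - 1 / 2 =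
          -(min (Metric.infDist y S) ρ / (2 * ρ)) := by ring
      rw [e, abs_neg, abs_of_nonneg hb]
    · rw [if_neg hy]
      have e : 1 / 2 + min (Metric.infDist y S) ρ / (2 * ρ) - 1 / 2 =
          min (Metric.infDist y S) ρ / (2 * ρ) := by ring
      rw [e, abs_of_nonneg hb]
  · have h1 : ContinuousAt (fun y => 1 / 2 - min (Metric.infDist y S) ρ / (2 * ρ)) x :=
      (continuous_const.sub hc).continuousAt
    refine h1.congr ?_
    filter_upwards [hA.mem_nhds hx] with y hy
    unfold th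
    rw [if_pos hy]
  · have h1 : ContinuousAt (fun y => 1 / 2 + min (Metric.infDist y S) ρ / (2 * ρ)) x :=
      (continuous_const.add hc).continuousAt
    refine h1.congr ?_
    filter_upwards [hB.mem_nhds hx] with y hy
    unfold th
    rw [if_neg fun h => Set.disjoint_left.1 hAB h hy]

variable {C J : Type}

open Classical in
/-- the glued map -/
noncomputable def TT (δ : ℝ) (G : C → Set X) (S : J → Set X) (a : J → C) (τ : C → X)
    (P : J → ℝ → X) (x : X) : X :=
  if h : ∃ j, x ∈ Metric.thickening δ (S j) then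
    P h.choose (th (G (a h.choose)) (S h.choose) (δ / 2) x)
  else if h' : ∃ c, x ∈ G c then τ h'.choose else x

theorem ne_of_mem_th {δ : ℝ} {S : Set X} {x : X} (h : x ∈ Metric.thickening δ S) :
    S.Nonempty := by
  obtain ⟨z, hz, -⟩ := Metric.mem_thickening_iff.1 h
  exact ⟨z, hz⟩

theorem TT_near {δ : ℝ} {G : C → Set X} {S : J → Set X} {a : J → C} {τ : C → X} {P : J → ℝ → X}
    (hd : ∀ j j', j ≠ j' → Disjoint (Metric.thickening δ (S j)) (Metric.thickening δ (S j')))
    {j : J} {x : X} (hx : x ∈ Metric.thickening δ (S j)) :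
    TT δ G S a τ P x = P j (th (G (a j)) (S j) (δ / 2) x) := by
  have h : ∃ j, x ∈ Metric.thickening δ (S j) := ⟨j, hx⟩
  have hj : h.choose = j := by
    by_contra hne
    exact Set.disjoint_left.1 (hd _ _ hne) h.choose_spec hx
  unfold TT
  rw [dif_pos h, hj]

theorem TT_far {δ : ℝ} (hδ : 0 < δ) {G : C → Set X} {S : J → Set X} {a b : J → C} {τ : C → X}
    {P : J → ℝ → X} (hab : ∀ j, a j ≠ b j)
    (hGd : ∀ c c', c ≠ c' → Disjoint (G c) (G c')) (hGS : ∀ c j, Disjoint (G c) (S j))
    (hd : ∀ j j', j ≠ j' → Disjoint (Metric.thickening δ (S j)) (Metric.thickening δ (S j')))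
    (hN : ∀ j, Metric.thickening δ (S j) ⊆ S j ∪ G (a j) ∪ G (b j))
    (hP : ∀ j, (S j).Nonempty → Continuous (P j) ∧ P j 0 = τ (a j) ∧ P j 1 = τ (b j))
    {c : C} {x : X} (hx : x ∈ G c) (hfar : ∀ j, (S j).Nonempty → δ / 2 ≤ Metric.infDist x (S j)) :
    TT δ G S a τ P x = τ c := by
  have huniq : ∀ c', x ∈ G c' → c' = c := by
    intro c' hc'
    by_contra hne
    exact Set.disjoint_left.1 (hGd _ _ hne) hc' hx
  by_cases h : ∃ j, x ∈ Metric.thickening δ (S j)
  · obtain ⟨j, hj⟩ := h
    have hne := ne_of_mem_th hj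
    have hm : min (Metric.infDist x (S j)) (δ / 2) / (2 * (δ / 2)) = 1 / 2 := by
      rw [min_eq_right (hfar j hne)]
      field_simp
    rw [TT_near hd hj]
    obtain ⟨-, hP0, hP1⟩ := hP j hne
    rcases hN j hj with (h1 | h1) | h1
    · exact absurd h1 (Set.disjoint_left.1 (hGS c j) hx)
    · have hthx : th (G (a j)) (S j) (δ / 2) x = 0 := by
        unfold th
        rw [if_pos h1, hm, sub_self]
      rw [hthx, hP0, huniq _ h1]
    · have hna : x ∉ G (a j) := fun h2 => Set.disjoint_left.1 (hGd _ _ (hab j)) h2 h1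
      have hthx : th (G (a j)) (S j) (δ / 2) x = 1 := by
        unfold th
        rw [if_neg hna, hm]
        norm_num
      rw [hthx, hP1, huniq _ h1]
  · have h' : ∃ c, x ∈ G c := ⟨c, hx⟩
    unfold TT
    rw [dif_neg h, dif_pos h', huniq _ h'.choose_spec]

theorem exists_delta [CompactSpace X] [Finite J] (S : J → Set X) (hS : ∀ j, IsClosed (S j))
    (hSd : ∀ j j', j ≠ j' → Disjoint (S j) (S j')) (U : J → Set X)
    (hN : ∀ j, ∃ r : ℝ, 0 < r ∧ Metric.thickening r (S j) ⊆ U j) {r : ℝ} (hr : 0 < r) :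
    ∃ δ : ℝ, 0 < δ ∧ δ ≤ r ∧ (∀ j, Metric.thickening δ (S j) ⊆ U j) ∧
      ∀ j j', j ≠ j' → Disjoint (Metric.thickening δ (S j)) (Metric.thickening δ (S j')) := by
  have h0 : ∀ᶠ δ in 𝓝[>] (0 : ℝ), 0 < δ := self_mem_nhdsWithin
  have hle : ∀ s : ℝ, 0 < s → ∀ᶠ δ in 𝓝[>] (0 : ℝ), δ ≤ s := fun s hs =>
    Filter.Eventually.filter_mono nhdsWithin_le_nhds (Iic_mem_nhds hs)
  have h2 : ∀ᶠ δ in 𝓝[>] (0 : ℝ), ∀ j, Metric.thickening δ (S j) ⊆ U j := by
    rw [Filter.eventually_all]
    intro j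
    obtain ⟨s, hs, hsU⟩ := hN j
    filter_upwards [hle s hs] with δ hδ
    exact (Metric.thickening_mono hδ _).trans hsU
  have h3 : ∀ᶠ δ in 𝓝[>] (0 : ℝ), ∀ j j', j ≠ j' →
      Disjoint (Metric.thickening δ (S j)) (Metric.thickening δ (S j')) := by
    rw [Filter.eventually_all]
    intro j
    rw [Filter.eventually_all]
    intro j'
    by_cases hjj : j = j'
    · exact Filter.Eventually.of_forall fun δ h => absurd hjj h
    · obtain ⟨s, hs, hsd⟩ := (hSd j j' hjj).exists_thickenings (hS j).isCompact (hS j')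
      filter_upwards [hle s hs] with δ hδ _
      exact hsd.mono (Metric.thickening_mono hδ _) (Metric.thickening_mono hδ _)
  obtain ⟨δ, hδ0, hδr, hδ2, hδ3⟩ := (h0.and ((hle r hr).and (h2.and h3))).exists
  exact ⟨δ, hδ0, hδr, hδ2, hδ3⟩

end GlueAux

open GlueAux

theorem glue {X : Type*} [MetricSpace X] [CompactSpace X] {C J : Type} [Finite C] [Finite J]
    (G : C → Set X) (S : J → Set X) (hG : ∀ c, IsOpen (G c))
    (hGd : ∀ c c', c ≠ c' → Disjoint (G c) (G c')) (hS : ∀ j, IsClosed (S j))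
    (hSd : ∀ j j', j ≠ j' → Disjoint (S j) (S j')) (hGS : ∀ c j, Disjoint (G c) (S j))
    (hcov : ∀ x, (∃ c, x ∈ G c) ∨ ∃ j, x ∈ S j) (a b : J → C) (hab : ∀ j, a j ≠ b j)
    (hN : ∀ j, ∃ r : ℝ, 0 < r ∧ Metric.thickening r (S j) ⊆ S j ∪ G (a j) ∪ G (b j))
    (τ : C → X) (P : J → ℝ → X)
    (hP : ∀ j, (S j).Nonempty → Continuous (P j) ∧ P j 0 = τ (a j) ∧ P j 1 = τ (b j))
    {r : ℝ} (hr : 0 < r) :
    ∃ T : X → X, Continuous T ∧ ∀ x, (∃ c, x ∈ G c ∧ T x = τ c) ∨
      ∃ j, x ∈ Metric.thickening r (S j) ∧ ∃ t ∈ Icc (0 : ℝ) 1, T x = P j t := by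
  obtain ⟨δ, hδ, hδr, hδN, hd⟩ := exists_delta S hS hSd (fun j => S j ∪ G (a j) ∪ G (b j)) hN hr
  have hδ2 : 0 < δ / 2 := by linarith
  refine ⟨TT δ G S a τ P, ?_, ?_⟩
  · rw [continuous_iff_continuousAt]
    intro x
    by_cases hx : ∃ j, x ∈ Metric.thickening δ (S j)
    · obtain ⟨j, hj⟩ := hx
      have hne := ne_of_mem_th hj
      have h1 : ContinuousAt (fun y => P j (th (G (a j)) (S j) (δ / 2) y)) x :=
        ContinuousAt.comp (hP j hne).1.continuousAt
          (th_cont (hG (a j)) (hG (b j)) (hGd _ _ (hab j)) hδ2 (hδN j hj))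
      refine h1.congr ?_
      filter_upwards [Metric.isOpen_thickening.mem_nhds hj] with y hy
      exact (TT_near hd hy).symm
    · have hx' : ∀ j, (S j).Nonempty → δ / 2 < Metric.infDist x (S j) := by
        intro j hne
        by_contra hcon
        refine hx ⟨j, (Metric.mem_thickening_iff_infDist_lt hne).2 ?_⟩
        linarith
      obtain ⟨c, hc⟩ : ∃ c, x ∈ G c := by
        rcases hcov x with h | ⟨j, hj⟩
        · exact h
        · exact absurd ⟨j, Metric.self_subset_thickening hδ _ hj⟩ hx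
      have h1 : ContinuousAt (fun _ : X => τ c) x := continuousAt_const
      refine h1.congr ?_
      have h2 : ∀ᶠ y in 𝓝 x, ∀ j, (S j).Nonempty → δ / 2 < Metric.infDist y (S j) := by
        rw [Filter.eventually_all]
        intro j
        by_cases hne : (S j).Nonempty
        · have h3 := (Metric.continuous_infDist_pt (S j)).continuousAt.eventually
            (Ioi_mem_nhds (hx' j hne))
          filter_upwards [h3] with y hy _
          exact hy
        · exact Filter.Eventually.of_forall fun y h => absurd h hne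
      filter_upwards [(hG c).mem_nhds hc, h2] with y hy hy2
      exact (TT_far hδ hab hGd hGS hd hδN hP hy fun j hne => (hy2 j hne).le).symm
  · intro x
    by_cases hx : ∃ j, (S j).Nonempty ∧ Metric.infDist x (S j) < δ / 2
    · obtain ⟨j, hne, hj⟩ := hx
      right
      refine ⟨j, (Metric.mem_thickening_iff_infDist_lt hne).2 (by linarith), _,
        th_mem hδ2 x, TT_near hd ((Metric.mem_thickening_iff_infDist_lt hne).2 (by linarith))⟩
    · have hx' : ∀ j, (S j).Nonempty → δ / 2 ≤ Metric.infDist x (S j) := by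
        intro j hne
        by_contra hcon
        exact hx ⟨j, hne, not_le.1 hcon⟩
      left
      rcases hcov x with ⟨c, hc⟩ | ⟨j, hj⟩
      · exact ⟨c, hc, TT_far hδ hab hGd hGS hd hδN hP hc hx'⟩
      · exfalso
        have h1 := hx' j ⟨x, hj⟩
        rw [Metric.infDist_zero_of_mem hj] at h1
        linarith

end Pool.Agent.Lib.P98
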