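import Pool.Agent.Lib.P98.PeanoB

/-!
Module P98.Peano.  Compact locally connected metric spaces are locally path connected.
-/

open Set Topology

namespace Pool.Agent.Lib.P98

theorem locallyPathConnected_of_locallyConnected (X : Type*) [MetricSpace X] [CompactSpace X]
    [LocallyConnectedSpace X] : LocallyPathConnectedSpace X := by
  rw [locallyPathConnectedSpace_iff_pathComponentIn_mem_nhds]
  intro x u hu hx
  obtain ⟨r, hr, hru⟩ := Metric.isOpen_iff.1 hu x hx
  obtain ⟨δ, hδ, hδ'⟩ := near_of_dist (X := X) (η := r / 20) (by positivity)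
  refine Filter.mem_of_superset (Metric.ball_mem_nhds x hδ) fun y hy => ?_
  have h1 := joined_of_near (ε := r / 20) (by positivity)
    (hδ' x y (by rw [dist_comm]; exact hy))
  rw [show 20 * (r / 20) = r by ring] at h1
  exact h1.mono hru

end Pool.Agent.Lib.P98
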