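import Pool.Agent.Lib.P98.Sys
import Pool.Agent.Lib.P98.Glue
import Pool.Agent.Lib.P98.DimA

/-!
Module P98.SysT: the map, (8) in `/team-store/r18_ulam.md`.
-/

open Set Topology

namespace Pool.Agent.Lib.P98

namespace SysTAux

section Gen

variable {X : Type*} [MetricSpace X]

/-- A common radius for finitely many thickenings. -/
theorem exists_common {J : Type*} [Finite J] (S N : J → Set X)
    (h : ∀ j, ∃ r : ℝ, 0 < r ∧ Metric.thickening r (S j) ⊆ N j) :
    ∃ r : ℝ, 0 < r ∧ ∀ j, Metric.thickening r (S j) ⊆ N j := by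
  choose ρ hρ hρ' using h
  rcases isEmpty_or_nonempty J with hJ | hJ
  · exact ⟨1, one_pos, fun j => isEmptyElim j⟩
  · obtain ⟨j0, hj0⟩ := Finite.exists_min ρ
    exact ⟨ρ j0, hρ j0, fun j => (Metric.thickening_mono (hj0 j) _).trans (hρ' j)⟩

/-- Splitting a totally disconnected set along two paths. -/
theorem split2 [CompactSpace X] {D : Set X} (hD : IsClosed D) (htd : IsTotallyDisconnected D)
    {R : Fin 2 → ℝ → X} (hR : D.Nonempty → ∀ a, Continuous (R a))
    (hx : ∀ x ∈ D, ∀ t ∈ Icc (0 : ℝ) 1, ∀ t' ∈ Icc (0 : ℝ) 1, R 0 t = x → R 1 t' ≠ x) :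
    ∃ S : Fin 2 → Set X, (∀ a, IsClosed (S a)) ∧ (∀ x, x ∈ D ↔ ∃ a, x ∈ S a) ∧
      (∀ a b x, x ∈ S a → x ∈ S b → a = b) ∧
      ∀ a, ∀ x ∈ S a, ∀ t ∈ Icc (0 : ℝ) 1, R a t ≠ x := by
  rcases D.eq_empty_or_nonempty with rfl | hne
  · refine ⟨fun _ => ∅, fun _ => isClosed_empty, fun x => ?_, fun a b x h => absurd h (by simp),
      fun a x h => absurd h (by simp)⟩
    simp
  have hc : ∀ a, IsClosed (R a '' Icc 0 1) := fun a =>
    (isCompact_Icc.image (hR hne a)).isClosed
  obtain ⟨D1, D2, h1, h2, h3, h4, h5, h6⟩ := td_split hD htd (hc 0) (hc 1) (by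
    rintro x hxD ⟨t, ht, htx⟩ ⟨t', ht', htx'⟩
    exact hx x hxD t ht t' ht' htx htx')
  refine ⟨![D1, D2], ?_, ?_, ?_, ?_⟩
  · intro a
    fin_cases a
    · exact h1
    · exact h2
  · intro x
    rw [← h3]
    constructor
    · rintro (h | h)
      · exact ⟨0, h⟩
      · exact ⟨1, h⟩
    · rintro ⟨a, ha⟩
      fin_cases a
      · exact Or.inl ha
      · exact Or.inr ha
  · intro a b x ha hb
    rw [Set.disjoint_left] at h4
    fin_cases a <;> fin_cases b
    · rfl
    · exact absurd hb (h4 ha)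
    · exact absurd ha (h4 hb)
    · rfl
  · intro a x ha t ht hax
    rw [Set.disjoint_left] at h5 h6
    fin_cases a
    · exact h5 ha ⟨t, ht, hax⟩
    · exact h6 ha ⟨t, ht, hax⟩

end Gen

variable {X : Type*} {m n : ℕ}

/-- The regions. -/
def gf [TopologicalSpace X] (A V : Fin m → Set X) (B W : Fin n → Set X) :
    (Fin m ⊕ Fin m) ⊕ (Fin n ⊕ Fin n) → Set X
  | .inl (.inl i) => A i
  | .inl (.inr i) => {x | x ∈ V i ∧ x ∉ closure (A i)}
  | .inr (.inl k) => B k
  | .inr (.inr k) => {x | x ∈ W k ∧ x ∉ closure (B k) ∧ ∀ i, x ∉ closure (V i)}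

/-- The targets. -/
def tf (lam lam' : Fin m → X) (mu mu' : Fin n → X) : (Fin m ⊕ Fin m) ⊕ (Fin n ⊕ Fin n) → X
  | .inl (.inl i) => lam' i
  | .inl (.inr i) => lam i
  | .inr (.inl k) => mu' k
  | .inr (.inr k) => mu k

/-- The separators. -/
def sf (SA : Fin m → Fin 2 → Set X) (SB : Fin n → Fin 2 → Set X)
    (SV : Fin m → Fin n → Fin 2 → Set X) :
    (Fin m × Fin 2) ⊕ (Fin n × Fin 2) ⊕ (Fin m × Fin n × Fin 2) → Set X
  | .inl (i, e) => SA i e
  | .inr (.inl (k, e)) => SB k e
  | .inr (.inr (i, k, e)) => SV i k e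

/-- The paths across the separators. -/
def pf (R : Fin m → Fin 2 → ℝ → X) (Q : Fin n → Fin 2 → ℝ → X) (P : Fin m → Fin n → Fin 2 → ℝ → X) :
    (Fin m × Fin 2) ⊕ (Fin n × Fin 2) ⊕ (Fin m × Fin n × Fin 2) → ℝ → X
  | .inl (i, e) => R i e
  | .inr (.inl (k, e)) => Q k e
  | .inr (.inr (i, k, e)) => P i k e

/-- The first side of a separator. -/
def af : (Fin m × Fin 2) ⊕ (Fin n × Fin 2) ⊕ (Fin m × Fin n × Fin 2) →
    (Fin m ⊕ Fin m) ⊕ (Fin n ⊕ Fin n)
  | .inl (i, _) => .inl (.inl i)
  | .inr (.inl (k, _)) => .inr (.inl k)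
  | .inr (.inr (i, _, _)) => .inl (.inr i)

/-- The second side of a separator. -/
def bf : (Fin m × Fin 2) ⊕ (Fin n × Fin 2) ⊕ (Fin m × Fin n × Fin 2) →
    (Fin m ⊕ Fin m) ⊕ (Fin n ⊕ Fin n)
  | .inl (i, _) => .inl (.inr i)
  | .inr (.inl (k, _)) => .inr (.inr k)
  | .inr (.inr (_, k, _)) => .inr (.inr k)

end SysTAux

open SysTAux

theorem sys_map {X : Type*} [MetricSpace X] [CompactSpace X] {ε : ℝ} {m n : ℕ}
    {O G V : Fin m → Set X}
    {W : Fin n → Set X} {A : Fin m → Set X} {lam lam' : Fin m → X} {R : Fin m → Fin 2 → ℝ → X}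
    {B : Fin n → Set X} {mu mu' : Fin n → X} {Q : Fin n → Fin 2 → ℝ → X}
    {P : Fin m → Fin n → Fin 2 → ℝ → X} (h : Sys ε m n O G V W A lam lam' R B mu mu' Q P) :
    ∃ T : X → X, Continuous T ∧ (∀ x, T x ≠ x) ∧ DispBelow T (3 * ε) := by
  -- inclusions
  have cAG : ∀ i, closure (A i) ⊆ G i := fun i => (h.spot i).clA
  have GV : ∀ i, G i ⊆ V i := fun i => subset_closure.trans (h.clG i)
  have cAV : ∀ i, closure (A i) ⊆ V i := fun i => (cAG i).trans (GV i)
  have VO : ∀ i, V i ⊆ O i := fun i => subset_closure.trans (h.clV i)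
  have cBW : ∀ k, closure (B k) ⊆ W k := fun k => (h.spot' k).clA
  have OO : ∀ i j x, x ∈ O i → x ∈ O j → i = j := fun i j x hi hj => by
    by_contra hne
    exact Set.disjoint_left.1 (h.djO i j hne) hi hj
  have WW : ∀ k l x, x ∈ W k → x ∈ W l → k = l := fun k l x hk hl => by
    by_contra hne
    exact Set.disjoint_left.1 (h.djW k l hne) hk hl
  have BV : ∀ k i x, x ∈ closure (B k) → x ∉ closure (V i) := fun k i x hx =>
    Set.disjoint_left.1 (h.djBV k i) hx
  have frV : ∀ i, ∀ x ∈ frontier (V i), x ∈ closure (V i) ∧ x ∉ V i ∧ ∃ k, x ∈ W k := by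
    intro i x hx
    rw [(h.opV i).frontier_eq] at hx
    refine ⟨hx.1, hx.2, ?_⟩
    by_contra hk
    push Not at hk
    exact hx.2 (GV i (h.cov' i x (h.clV i hx.1) hk))
  -- the frontier of `V i` inside `W k`
  have clFW : ∀ i k, IsClosed (frontier (V i) ∩ W k) := by
    intro i k
    have h1 : frontier (V i) ∩ W k = frontier (V i) ∩ (⋃ l ∈ {l : Fin n | l ≠ k}, W l)ᶜ := by
      ext x
      constructor
      · rintro ⟨hx, hk⟩
        refine ⟨hx, ?_⟩
        simp only [mem_compl_iff, mem_iUnion, not_exists]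
        intro l hl hxl
        exact hl (WW l k x hxl hk)
      · rintro ⟨hx, hk⟩
        refine ⟨hx, ?_⟩
        obtain ⟨l, hl⟩ := (frV i x hx).2.2
        simp only [mem_compl_iff, mem_iUnion, not_exists] at hk
        by_cases hlk : l = k
        · rwa [← hlk]
        · exact absurd hl (hk l hlk)
    rw [h1]
    refine isClosed_frontier.inter (isOpen_biUnion fun l _ => h.opW l).isClosed_compl
  -- splittings
  have h1 : ∀ i, ∃ S : Fin 2 → Set X, (∀ a, IsClosed (S a)) ∧
      (∀ x, x ∈ frontier (A i) ↔ ∃ a, x ∈ S a) ∧ (∀ a b x, x ∈ S a → x ∈ S b → a = b) ∧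
      ∀ a, ∀ x ∈ S a, ∀ t ∈ Icc (0 : ℝ) 1, R i a t ≠ x := fun i =>
    split2 isClosed_frontier (h.spot i).tdA (fun _ => (h.spot i).cont) (h.spot i).cross
  have h2 : ∀ k, ∃ S : Fin 2 → Set X, (∀ a, IsClosed (S a)) ∧
      (∀ x, x ∈ frontier (B k) ↔ ∃ a, x ∈ S a) ∧ (∀ a b x, x ∈ S a → x ∈ S b → a = b) ∧
      ∀ a, ∀ x ∈ S a, ∀ t ∈ Icc (0 : ℝ) 1, Q k a t ≠ x := fun k =>
    split2 isClosed_frontier (h.spot' k).tdA (fun _ => (h.spot' k).cont) (h.spot' k).cross
  have h3 : ∀ i k, ∃ S : Fin 2 → Set X, (∀ a, IsClosed (S a)) ∧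
      (∀ x, x ∈ frontier (V i) ∩ W k ↔ ∃ a, x ∈ S a) ∧ (∀ a b x, x ∈ S a → x ∈ S b → a = b) ∧
      ∀ a, ∀ x ∈ S a, ∀ t ∈ Icc (0 : ℝ) 1, P i k a t ≠ x := fun i k =>
    split2 (clFW i k) (fun t ht => h.tdV i t (ht.trans inter_subset_left))
      (fun ⟨x, hx⟩ => h.contP i k ⟨x, h.clV i (frV i x hx.1).1, hx.2⟩)
      (fun x hx => h.crossP i k x hx.1 hx.2)
  choose SA cA mA dA pA using h1
  choose SB cB mB dB pB using h2
  choose SV cV mV dV pV using h3
  -- what the members of the separators satisfy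
  have fA : ∀ i e x, x ∈ SA i e → x ∈ closure (A i) ∧ x ∉ A i := by
    intro i e x hx
    have := (mA i x).2 ⟨e, hx⟩
    rw [(h.spot i).opA.frontier_eq] at this
    exact this
  have fB : ∀ k e x, x ∈ SB k e → x ∈ closure (B k) ∧ x ∉ B k := by
    intro k e x hx
    have := (mB k x).2 ⟨e, hx⟩
    rw [(h.spot' k).opA.frontier_eq] at this
    exact this
  have fV : ∀ i k e x, x ∈ SV i k e → x ∈ closure (V i) ∧ x ∉ V i ∧ x ∈ W k := by
    intro i k e x hx
    have := (mV i k x).2 ⟨e, hx⟩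
    exact ⟨(frV i x this.1).1, (frV i x this.1).2.1, this.2⟩
  -- the regions
  have opG : ∀ c, IsOpen (gf A V B W c) := by
    rintro ((i | i) | (k | k))
    · exact (h.spot i).opA
    · exact (h.opV i).inter isClosed_closure.isOpen_compl
    · exact (h.spot' k).opA
    · have : gf A V B W (.inr (.inr k)) = W k ∩ (closure (B k))ᶜ ∩ (⋃ i, closure (V i))ᶜ := by
        ext x
        simp only [gf, mem_ofPred_eq, mem_inter_iff, mem_compl_iff, mem_iUnion, not_exists,
          and_assoc]
      rw [this]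
      exact ((h.opW k).inter isClosed_closure.isOpen_compl).inter
        (isClosed_iUnion_of_finite fun i => isClosed_closure).isOpen_compl
  have sA : ∀ i, A i ⊆ closure (A i) := fun i => subset_closure
  have sB : ∀ k, B k ⊆ closure (B k) := fun k => subset_closure
  have sV : ∀ i, V i ⊆ closure (V i) := fun i => subset_closure
  have AO : ∀ i x, x ∈ closure (A i) → x ∈ O i := fun i x hx => VO i (cAV i hx)
  have djG : ∀ c c' x, x ∈ gf A V B W c → x ∈ gf A V B W c' → c = c' := by
    rintro ((i | i) | (k | k)) ((j | j) | (l | l)) x hx hx' <;> simp only [gf, mem_ofPred_eq] at hx hx'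
    · rw [OO i j x (AO i x (sA i hx)) (AO j x (sA j hx'))]
    · have := OO i j x (AO i x (sA i hx)) (VO j hx'.1)
      subst this
      exact absurd (sA i hx) hx'.2
    · exact absurd (sV i (cAV i (sA i hx))) (BV l i x (sB l hx'))
    · exact absurd (sV i (cAV i (sA i hx))) (hx'.2.2 i)
    · have := OO i j x (VO i hx.1) (AO j x (sA j hx'))
      subst this
      exact absurd (sA i hx') hx.2
    · rw [OO i j x (VO i hx.1) (VO j hx'.1)]
    · exact absurd (sV i hx.1) (BV l i x (sB l hx'))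
    · exact absurd (sV i hx.1) (hx'.2.2 i)
    · exact absurd (sV j (cAV j (sA j hx'))) (BV k j x (sB k hx))
    · exact absurd (sV j hx'.1) (BV k j x (sB k hx))
    · rw [WW k l x (cBW k (sB k hx)) (cBW l (sB l hx'))]
    · have := WW k l x (cBW k (sB k hx)) hx'.1
      subst this
      exact absurd (sB k hx) hx'.2.1
    · exact absurd (sV j (cAV j (sA j hx'))) (hx.2.2 j)
    · exact absurd (sV j hx'.1) (hx.2.2 j)
    · have := WW k l x hx.1 (cBW l (sB l hx'))
      subst this
      exact absurd (sB k hx') hx.2.1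
    · rw [WW k l x hx.1 hx'.1]
  have clS : ∀ j, IsClosed (sf SA SB SV j) := by
    rintro (⟨i, e⟩ | ⟨k, e⟩ | ⟨i, k, e⟩)
    · exact cA i e
    · exact cB k e
    · exact cV i k e
  have djS : ∀ j j' x, x ∈ sf SA SB SV j → x ∈ sf SA SB SV j' → j = j' := by
    rintro (⟨i, e⟩ | ⟨k, e⟩ | ⟨i, k, e⟩) (⟨i', e'⟩ | ⟨k', e'⟩ | ⟨i', k', e'⟩) x hx hx' <;>
      simp only [sf] at hx hx'
    · have := OO i i' x (AO i x (fA i e x hx).1) (AO i' x (fA i' e' x hx').1)
      subst this
      rw [dA i e e' x hx hx']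
    · exact absurd (sV i (cAV i (fA i e x hx).1)) (BV k' i x (fB k' e' x hx').1)
    · have := OO i i' x (AO i x (fA i e x hx).1) (h.clV i' (fV i' k' e' x hx').1)
      subst this
      exact absurd (cAV i (fA i e x hx).1) (fV i k' e' x hx').2.1
    · exact absurd (sV i' (cAV i' (fA i' e' x hx').1)) (BV k i' x (fB k e x hx).1)
    · have := WW k k' x (cBW k (fB k e x hx).1) (cBW k' (fB k' e' x hx').1)
      subst this
      rw [dB k e e' x hx hx']
    · exact absurd (fV i' k' e' x hx').1 (BV k i' x (fB k e x hx).1)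
    · have := OO i i' x (h.clV i (fV i k e x hx).1) (AO i' x (fA i' e' x hx').1)
      subst this
      exact absurd (cAV i (fA i e' x hx').1) (fV i k e x hx).2.1
    · exact absurd (fV i k e x hx).1 (BV k' i x (fB k' e' x hx').1)
    · have := OO i i' x (h.clV i (fV i k e x hx).1) (h.clV i' (fV i' k' e' x hx').1)
      subst this
      have := WW k k' x (fV i k e x hx).2.2 (fV i k' e' x hx').2.2
      subst this
      rw [dV i k e e' x hx hx']
  have djGS : ∀ c j x, x ∈ gf A V B W c → x ∉ sf SA SB SV j := by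
    rintro ((i | i) | (k | k)) (⟨i', e⟩ | ⟨k', e⟩ | ⟨i', k', e⟩) x hx hx' <;>
      simp only [gf, mem_ofPred_eq] at hx <;> simp only [sf] at hx'
    · have := OO i i' x (AO i x (sA i hx)) (AO i' x (fA i' e x hx').1)
      subst this
      exact (fA i e x hx').2 hx
    · exact absurd (sV i (cAV i (sA i hx))) (BV k' i x (fB k' e x hx').1)
    · have := OO i i' x (AO i x (sA i hx)) (h.clV i' (fV i' k' e x hx').1)
      subst this
      exact (fV i k' e x hx').2.1 (cAV i (sA i hx))
    · have := OO i i' x (VO i hx.1) (AO i' x (fA i' e x hx').1)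
      subst this
      exact hx.2 (fA i e x hx').1
    · exact absurd (sV i hx.1) (BV k' i x (fB k' e x hx').1)
    · have := OO i i' x (VO i hx.1) (h.clV i' (fV i' k' e x hx').1)
      subst this
      exact (fV i k' e x hx').2.1 hx.1
    · exact absurd (sV i' (cAV i' (fA i' e x hx').1)) (BV k i' x (sB k hx))
    · have := WW k k' x (cBW k (sB k hx)) (cBW k' (fB k' e x hx').1)
      subst this
      exact (fB k e x hx').2 hx
    · exact absurd (fV i' k' e x hx').1 (BV k i' x (sB k hx))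
    · exact hx.2.2 i' (sV i' (cAV i' (fA i' e x hx').1))
    · have := WW k k' x hx.1 (cBW k' (fB k' e x hx').1)
      subst this
      exact hx.2.1 (fB k e x hx').1
    · exact hx.2.2 i' (fV i' k' e x hx').1
  have cov : ∀ x, (∃ c, x ∈ gf A V B W c) ∨ ∃ j, x ∈ sf SA SB SV j := by
    intro x
    by_cases hV : ∃ i, x ∈ closure (V i)
    · obtain ⟨i, hi⟩ := hV
      by_cases hV' : x ∈ V i
      · by_cases h4 : x ∈ A i
        · exact Or.inl ⟨.inl (.inl i), h4⟩
        · by_cases h5 : x ∈ closure (A i)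
          · have : x ∈ frontier (A i) := by
              rw [(h.spot i).opA.frontier_eq]
              exact ⟨h5, h4⟩
            obtain ⟨e, he⟩ := (mA i x).1 this
            exact Or.inr ⟨.inl (i, e), he⟩
          · exact Or.inl ⟨.inl (.inr i), hV', h5⟩
      · have : x ∈ frontier (V i) := by
          rw [(h.opV i).frontier_eq]
          exact ⟨hi, hV'⟩
        obtain ⟨k, hk⟩ := (frV i x this).2.2
        obtain ⟨e, he⟩ := (mV i k x).1 ⟨this, hk⟩
        exact Or.inr ⟨.inr (.inr (i, k, e)), he⟩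
    · push Not at hV
      obtain ⟨k, hk⟩ : ∃ k, x ∈ W k := by
        by_contra hk
        push Not at hk
        rcases h.cov x with ⟨i, hi⟩ | ⟨k, hk'⟩
        · exact hV i (sV i (GV i (h.cov' i x hi hk)))
        · exact hk k hk'
      by_cases h4 : x ∈ B k
      · exact Or.inl ⟨.inr (.inl k), h4⟩
      · by_cases h5 : x ∈ closure (B k)
        · have : x ∈ frontier (B k) := by
            rw [(h.spot' k).opA.frontier_eq]
            exact ⟨h5, h4⟩
          obtain ⟨e, he⟩ := (mB k x).1 this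
          exact Or.inr ⟨.inr (.inl (k, e)), he⟩
        · exact Or.inl ⟨.inr (.inr k), hk, h5, hV⟩
  -- open neighbourhoods of the separators
  have hNb : ∀ j : (Fin m × Fin 2) ⊕ (Fin n × Fin 2) ⊕ (Fin m × Fin n × Fin 2), ∃ N : Set X,
      IsOpen N ∧ sf SA SB SV j ⊆ N ∧
      N ⊆ sf SA SB SV j ∪ gf A V B W (af j) ∪ gf A V B W (bf j) := by
    rintro (⟨i, e⟩ | ⟨k, e⟩ | ⟨i, k, e⟩)
    · refine ⟨V i ∩ (⋃ e' ∈ {e' : Fin 2 | e' ≠ e}, SA i e')ᶜ,
        (h.opV i).inter (Set.Finite.isClosed_biUnion (Set.toFinite _)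
          fun e' _ => cA i e').isOpen_compl, ?_, ?_⟩
      · intro x hx
        refine ⟨cAV i (fA i e x hx).1, ?_⟩
        simp only [mem_compl_iff, mem_iUnion, not_exists]
        intro e' he' hx'
        exact he' (dA i e' e x hx' hx)
      · rintro x ⟨hx, hx'⟩
        simp only [mem_compl_iff, mem_iUnion, not_exists] at hx'
        by_cases h4 : x ∈ A i
        · exact Or.inl (Or.inr h4)
        · by_cases h5 : x ∈ closure (A i)
          · have : x ∈ frontier (A i) := by
              rw [(h.spot i).opA.frontier_eq]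
              exact ⟨h5, h4⟩
            obtain ⟨e', he'⟩ := (mA i x).1 this
            by_cases hee : e' = e
            · subst hee
              exact Or.inl (Or.inl he')
            · exact absurd he' (hx' e' hee)
          · exact Or.inr ⟨hx, h5⟩
    · refine ⟨W k ∩ (⋃ i, closure (V i))ᶜ ∩ (⋃ e' ∈ {e' : Fin 2 | e' ≠ e}, SB k e')ᶜ,
        ((h.opW k).inter (isClosed_iUnion_of_finite fun i => isClosed_closure).isOpen_compl).inter
          (Set.Finite.isClosed_biUnion (Set.toFinite _) fun e' _ => cB k e').isOpen_compl, ?_, ?_⟩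
      · intro x hx
        refine ⟨⟨cBW k (fB k e x hx).1, ?_⟩, ?_⟩
        · simp only [mem_compl_iff, mem_iUnion, not_exists]
          exact fun i => BV k i x (fB k e x hx).1
        · simp only [mem_compl_iff, mem_iUnion, not_exists]
          intro e' he' hx'
          exact he' (dB k e' e x hx' hx)
      · rintro x ⟨⟨hx, hx''⟩, hx'⟩
        simp only [mem_compl_iff, mem_iUnion, not_exists] at hx' hx''
        by_cases h4 : x ∈ B k
        · exact Or.inl (Or.inr h4)
        · by_cases h5 : x ∈ closure (B k)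
          · have : x ∈ frontier (B k) := by
              rw [(h.spot' k).opA.frontier_eq]
              exact ⟨h5, h4⟩
            obtain ⟨e', he'⟩ := (mB k x).1 this
            by_cases hee : e' = e
            · subst hee
              exact Or.inl (Or.inl he')
            · exact absurd he' (hx' e' hee)
          · exact Or.inr ⟨hx, h5, hx''⟩
    · refine ⟨O i ∩ W k ∩ (closure (A i))ᶜ ∩ (closure (B k))ᶜ ∩
        (⋃ e' ∈ {e' : Fin 2 | e' ≠ e}, SV i k e')ᶜ,
        ((((h.opO i).inter (h.opW k)).inter isClosed_closure.isOpen_compl).inter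
          isClosed_closure.isOpen_compl).inter
          (Set.Finite.isClosed_biUnion (Set.toFinite _) fun e' _ => cV i k e').isOpen_compl, ?_, ?_⟩
      · intro x hx
        obtain ⟨f1, f2, f3⟩ := fV i k e x hx
        refine ⟨⟨⟨⟨h.clV i f1, f3⟩, fun hh => f2 (cAV i hh)⟩, fun hh => BV k i x hh f1⟩, ?_⟩
        simp only [mem_compl_iff, mem_iUnion, not_exists]
        intro e' he' hx'
        exact he' (dV i k e' e x hx' hx)
      · rintro x ⟨⟨⟨⟨g1, g2⟩, g3⟩, g4⟩, hx'⟩
        simp only [mem_compl_iff, mem_iUnion, not_exists] at hx' g3 g4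
        by_cases h4 : x ∈ V i
        · exact Or.inl (Or.inr ⟨h4, g3⟩)
        · by_cases h5 : x ∈ closure (V i)
          · have : x ∈ frontier (V i) := by
              rw [(h.opV i).frontier_eq]
              exact ⟨h5, h4⟩
            obtain ⟨e', he'⟩ := (mV i k x).1 ⟨this, g2⟩
            by_cases hee : e' = e
            · subst hee
              exact Or.inl (Or.inl he')
            · exact absurd he' (hx' e' hee)
          · refine Or.inr ⟨g2, g4, fun i' hi' => ?_⟩
            have := OO i' i x (h.clV i' hi') g1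
            subst this
            exact h5 hi'
  have hN : ∀ j, ∃ r : ℝ, 0 < r ∧ Metric.thickening r (sf SA SB SV j) ⊆
      sf SA SB SV j ∪ gf A V B W (af j) ∪ gf A V B W (bf j) := by
    intro j
    obtain ⟨N, hN1, hN2, hN3⟩ := hNb j
    obtain ⟨r, hr, hr'⟩ := (clS j).isCompact.exists_thickening_subset_open hN1 hN2
    exact ⟨r, hr, hr'.trans hN3⟩
  have hab : ∀ j : (Fin m × Fin 2) ⊕ (Fin n × Fin 2) ⊕ (Fin m × Fin n × Fin 2), af j ≠ bf j := by
    rintro (⟨i, e⟩ | ⟨k, e⟩ | ⟨i, k, e⟩) <;> simp [af, bf]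
  have adjV : ∀ i k e, (SV i k e).Nonempty → (O i ∩ W k).Nonempty := by
    rintro i k e ⟨x, hx⟩
    exact ⟨x, h.clV i (fV i k e x hx).1, (fV i k e x hx).2.2⟩
  have hP : ∀ j, (sf SA SB SV j).Nonempty → Continuous (pf R Q P j) ∧
      pf R Q P j 0 = tf lam lam' mu mu' (af j) ∧ pf R Q P j 1 = tf lam lam' mu mu' (bf j) := by
    rintro (⟨i, e⟩ | ⟨k, e⟩ | ⟨i, k, e⟩) hne
    · exact ⟨(h.spot i).cont e, (h.spot i).ends e⟩
    · exact ⟨(h.spot' k).cont e, (h.spot' k).ends e⟩
    · exact ⟨h.contP i k (adjV i k e hne) e, h.endsP i k (adjV i k e hne) e⟩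
  -- the radius
  have hr : ∃ r : ℝ, 0 < r ∧ ∀ j, Metric.thickening r (sf SA SB SV j) ⊆
      {x | (∀ t ∈ Icc (0 : ℝ) 1, pf R Q P j t ≠ x) ∧
        match j with
        | .inl (i, _) => x ∈ V i
        | .inr (.inl (k, _)) => x ∈ W k ∧ ∀ i, x ∉ closure (V i)
        | .inr (.inr (i, k, _)) => x ∈ O i ∧ x ∈ W k ∧ x ∉ closure (G i)} := by
    apply exists_common
    intro j
    rcases (sf SA SB SV j).eq_empty_or_nonempty with he | hne
    · refine ⟨1, one_pos, ?_⟩
      rw [he, Metric.thickening_empty]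
      exact empty_subset _
    have hc : IsClosed (pf R Q P j '' Icc 0 1) := (isCompact_Icc.image (hP j hne).1).isClosed
    have hcc := (clS j).isCompact
    rcases j with ⟨i, e⟩ | ⟨k, e⟩ | ⟨i, k, e⟩
    · obtain ⟨r, hr, hr'⟩ := hcc.exists_thickening_subset_open
        ((h.opV i).inter hc.isOpen_compl) (by
          intro x hx
          refine ⟨cAV i (fA i e x hx).1, ?_⟩
          rintro ⟨t, ht, htx⟩
          exact pA i e x hx t ht htx)
      refine ⟨r, hr, fun x hx => ?_⟩
      have := hr' hx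
      exact ⟨fun t ht htx => this.2 ⟨t, ht, htx⟩, this.1⟩
    · obtain ⟨r, hr, hr'⟩ := hcc.exists_thickening_subset_open
        (((h.opW k).inter (isClosed_iUnion_of_finite fun i =>
          isClosed_closure (s := V i)).isOpen_compl).inter hc.isOpen_compl) (by
          intro x hx
          refine ⟨⟨cBW k (fB k e x hx).1, ?_⟩, ?_⟩
          · simp only [mem_compl_iff, mem_iUnion, not_exists]
            exact fun i => BV k i x (fB k e x hx).1
          rintro ⟨t, ht, htx⟩
          exact pB k e x hx t ht htx)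
      refine ⟨r, hr, fun x hx => ?_⟩
      have := hr' hx
      refine ⟨fun t ht htx => this.2 ⟨t, ht, htx⟩, this.1.1, ?_⟩
      have h4 := this.1.2
      simp only [mem_compl_iff, mem_iUnion, not_exists] at h4
      exact h4
    · obtain ⟨r, hr, hr'⟩ := hcc.exists_thickening_subset_open
        ((((h.opO i).inter (h.opW k)).inter
          (isClosed_closure (s := G i)).isOpen_compl).inter hc.isOpen_compl) (by
          intro x hx
          obtain ⟨f1, f2, f3⟩ := fV i k e x hx
          refine ⟨⟨⟨h.clV i f1, f3⟩, fun hh => f2 (h.clG i hh)⟩, ?_⟩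
          rintro ⟨t, ht, htx⟩
          exact pV i k e x hx t ht htx)
      refine ⟨r, hr, fun x hx => ?_⟩
      have := hr' hx
      exact ⟨fun t ht htx => this.2 ⟨t, ht, htx⟩, this.1.1.1, this.1.1.2, this.1.2⟩
  obtain ⟨r, hr, hr'⟩ := hr
  obtain ⟨T, hT, hTx⟩ := glue (gf A V B W) (sf SA SB SV) opG
    (fun c c' hcc => Set.disjoint_left.2 fun x hx hx' => hcc (djG c c' x hx hx')) clS
    (fun j j' hjj => Set.disjoint_left.2 fun x hx hx' => hjj (djS j j' x hx hx'))
    (fun c j => Set.disjoint_left.2 fun x hx => djGS c j x hx) cov af bf hab hN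
    (tf lam lam' mu mu') (pf R Q P) hP hr
  have lamG : ∀ i, lam i ∈ G i := fun i => cAG i (sA i (h.spot i).memA)
  have lamG' : ∀ i, lam' i ∈ G i := fun i => by
    have := (h.spot i).inY 0 0 ⟨le_rfl, zero_le_one⟩
    rwa [((h.spot i).ends 0).1] at this
  have muW : ∀ k, mu k ∈ W k := fun k => cBW k (sB k (h.spot' k).memA)
  have muW' : ∀ k, mu' k ∈ W k := fun k => by
    have := (h.spot' k).inY 0 0 ⟨le_rfl, zero_le_one⟩
    rwa [((h.spot' k).ends 0).1] at this
  refine ⟨T, hT, ?_, ?_⟩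
  · -- no fixed point
    intro x hx
    rcases hTx x with ⟨c, hc, hc'⟩ | ⟨j, hj, t, ht, htx⟩
    · rw [hx] at hc'
      rcases c with (i | i) | (k | k)
      · simp only [gf, tf] at hc hc'
        rw [hc'] at hc
        exact (h.spot i).notA (sA i hc)
      · simp only [gf, tf, mem_ofPred_eq] at hc hc'
        rw [hc'] at hc
        exact hc.2 (sA i (h.spot i).memA)
      · simp only [gf, tf] at hc hc'
        rw [hc'] at hc
        exact (h.spot' k).notA (sB k hc)
      · simp only [gf, tf, mem_ofPred_eq] at hc hc'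
        rw [hc'] at hc
        exact hc.2.1 (sB k (h.spot' k).memA)
    · rw [hx] at htx
      exact (hr' j hj).1 t ht htx.symm
  · -- the stars
    set near : Fin n → X → Prop := fun k x => ∃ i e, x ∈ Metric.thickening r (SV i k e) with hnear
    have near1 : ∀ k x, near k x → x ∈ W k ∧ ∀ i, x ∉ closure (G i) := by
      rintro k x ⟨i, e, hx⟩
      obtain ⟨-, g1, g2, g3⟩ := hr' (.inr (.inr (i, k, e))) hx
      refine ⟨g2, fun i' hi' => ?_⟩
      have := OO i' i x (VO i' (h.clG i' hi')) g1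
      subst this
      exact g3 hi'
    set Om : Fin n → Set X := fun k => {x | (x ∈ W k ∨ ∃ i, (O i ∩ W k).Nonempty ∧ x ∈ V i) ∧
      ∀ k', k' ≠ k → ¬ near k' x} with hOm
    have omW : ∀ k, W k ⊆ Om k := fun k x hx =>
      ⟨Or.inl hx, fun k' hk' hn => hk' (WW k' k x (near1 k' x hn).1 hx)⟩
    have omG : ∀ i k, (O i ∩ W k).Nonempty → G i ⊆ Om k := fun i k hik x hx =>
      ⟨Or.inr ⟨i, hik, GV i hx⟩, fun k' _ hn => (near1 k' x hn).2 i (subset_closure hx)⟩
    have adjO : ∀ k x, x ∈ Om k → ∀ i, x ∈ V i → (O i ∩ W k).Nonempty := by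
      rintro k x ⟨hx | ⟨i', hi', hx⟩, -⟩ i hi
      · exact ⟨x, VO i hi, hx⟩
      · have := OO i i' x (VO i hi) (VO i' hx)
        subst this
        exact hi'
    have adjW : ∀ k x, x ∈ Om k → (∀ i, x ∉ closure (V i)) → ∀ k', x ∈ W k' → k' = k := by
      rintro k x ⟨hx | ⟨i', hi', hx⟩, -⟩ hV k' hk'
      · exact WW k' k x hk' hx
      · exact absurd (sV i' hx) (hV i')
    have inv : ∀ k x, x ∈ Om k → T x ∈ Om k := by
      intro k x hx
      rcases hTx x with ⟨c, hc, hc'⟩ | ⟨j, hj, t, ht, htx⟩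
      · rw [hc']
        rcases c with (i | i) | (k' | k')
        · exact omG i k (adjO k x hx i (cAV i (sA i hc))) (lamG' i)
        · exact omG i k (adjO k x hx i hc.1) (lamG i)
        · have := adjW k x hx (fun i => BV k' i x (sB k' hc)) k' (cBW k' (sB k' hc))
          subst this
          exact omW k' (muW' k')
        · have := adjW k x hx hc.2.2 k' hc.1
          subst this
          exact omW k' (muW k')
      · rw [htx]
        rcases j with ⟨i, e⟩ | ⟨k', e⟩ | ⟨i, k', e⟩
        · exact omG i k (adjO k x hx i (hr' (.inl (i, e)) hj).2) ((h.spot i).inY e t ht)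
        · obtain ⟨-, g1, g2⟩ := hr' (.inr (.inl (k', e))) hj
          have := adjW k x hx g2 k' g1
          subst this
          exact omW k' ((h.spot' k').inY e t ht)
        · obtain ⟨-, g1, g2, g3⟩ := hr' (.inr (.inr (i, k', e))) hj
          have hk : k' = k := by
            by_contra hne
            exact hx.2 k' hne ⟨i, e, hj⟩
          subst hk
          have hadj : (O i ∩ W k').Nonempty := ⟨x, g1, g2⟩
          rcases h.inP i k' hadj e t ht with g | g
          · exact omG i k' hadj g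
          · exact omW k' g
    have iter : ∀ k x, x ∈ Om k → ∀ N : ℕ, T^[N] x ∈ Om k := by
      intro k x hx N
      induction N with
      | zero => exact hx
      | succ N ih =>
        rw [Function.iterate_succ_apply']
        exact inv k _ ih
    have exOm : ∀ x, ∃ k, x ∈ Om k := by
      intro x
      by_cases hW : ∃ k, x ∈ W k
      · obtain ⟨k, hk⟩ := hW
        exact ⟨k, omW k hk⟩
      · push Not at hW
        rcases h.cov x with ⟨i, hi⟩ | ⟨k, hk⟩
        · obtain ⟨k, hk⟩ := h.adj i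
          exact ⟨k, omG i k hk (h.cov' i x hi hW)⟩
        · exact absurd hk (hW k)
    have close : ∀ k x, x ∈ Om k → ∃ w ∈ W k, dist x w < ε := by
      rintro k x ⟨hx | ⟨i, ⟨w, hw1, hw2⟩, hx⟩, -⟩
      · exact ⟨x, hx, h.dmW k x hx x hx⟩
      · exact ⟨w, hw2, h.dmO i x (VO i hx) w hw1⟩
    intro N _ x
    obtain ⟨k, hk⟩ := exOm x
    obtain ⟨w, hw, hwx⟩ := close k x hk
    obtain ⟨w', hw', hwx'⟩ := close k _ (iter k x hk N)
    have g1 := h.dmW k w' hw' w hw
    have g2 := dist_triangle4 (T^[N] x) w' w x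
    have g3 : dist w x < ε := by rwa [dist_comm]
    linarith

end Pool.Agent.Lib.P98
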