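import Pool.Agent.Lib.P98.SysA
import Pool.Agent.Lib.P98.SysT
import Pool.Agent.Lib.P98.Peano

/-!
Module P98.Main: a locally connected continuum of dimension one without open arc with point attachments fails (F).
-/

open Set Topology

namespace Pool.Agent.Lib.P98

theorem not_propF {X : Type*} [MetricSpace X] [CompactSpace X] [ConnectedSpace X]
    [LocallyConnectedSpace X] [Nontrivial X] (hd : DimLeOne X) (hno : ¬ HasArcCore X) {B : ℝ}
    (hB : 0 < B) : ∃ T : X → X, Continuous T ∧ (∀ x, T x ≠ x) ∧ DispBelow T B := by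
  have := locallyPathConnected_of_locallyConnected X
  obtain ⟨m, n, O, G, V, W, A, lam, lam', R, C, mu, mu', Q, P, h⟩ :=
    exists_sys hd hno (ε := B / 3) (by positivity)
  obtain ⟨T, h1, h2, h3⟩ := sys_map h
  exact ⟨T, h1, h2, by rwa [show 3 * (B / 3) = B by ring] at h3⟩

end Pool.Agent.Lib.P98
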