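import Mathlib

/-!
Module P98.PeanoA (Mathlib only).

PROOF.  `near_of_dist`: every point has a connected open neighbourhood of diameter `≤ η`; Lebesgue number (`lebesgue_number_lemma_of_metric` for `univ`).
`near_chain`: let `C` be the connected set with `x, y ∈ C`, diameter `≤ η`, and `δ` from `near_of_dist` for `η'`.  The set of the points of `C` reachable
from `x` by chains in `C` with steps `< δ` is clopen in `C` (`IsPreconnected.induction₂` or `IsPreconnected.subset_isClopen`).
-/

open Set Topology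

namespace Pool.Agent.Lib.P98

/-- `x` and `y` lie in a connected set of diameter at most `η`. -/
def Near {X : Type*} [MetricSpace X] (η : ℝ) (x y : X) : Prop :=
  ∃ C : Set X, IsPreconnected C ∧ x ∈ C ∧ y ∈ C ∧ ∀ u ∈ C, ∀ v ∈ C, dist u v ≤ η

theorem near_of_dist {X : Type*} [MetricSpace X] [CompactSpace X] [LocallyConnectedSpace X]
    {η : ℝ} (hη : 0 < η) : ∃ δ : ℝ, 0 < δ ∧ ∀ x y : X, dist x y < δ → Near η x y := by
  have h1 : ∀ x : X, ∃ V : Set X, V ⊆ Metric.ball x (η / 2) ∧ IsOpen V ∧ x ∈ V ∧ IsConnected V :=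
    fun x => locallyConnectedSpace_iff_subsets_isOpen_isConnected.mp inferInstance x _
      (Metric.ball_mem_nhds x (half_pos hη))
  choose V hVb hVo hVx hVc using h1
  obtain ⟨δ, hδ, hL⟩ := lebesgue_number_lemma_of_metric (s := (univ : Set X)) isCompact_univ hVo
    (fun x _ => mem_iUnion.mpr ⟨x, hVx x⟩)
  refine ⟨δ, hδ, fun x y hxy => ?_⟩
  obtain ⟨i, hi⟩ := hL x (mem_univ x)
  refine ⟨V i, (hVc i).isPreconnected, hi (Metric.mem_ball_self hδ),
    hi (Metric.mem_ball.mpr (by rw [dist_comm]; exact hxy)), fun u hu v hv => ?_⟩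
  have hu' := Metric.mem_ball.mp (hVb i hu)
  have hv' := Metric.mem_ball.mp (hVb i hv)
  have h3 := dist_triangle_right u v i
  linarith

theorem near_chain {X : Type*} [MetricSpace X] [CompactSpace X] [LocallyConnectedSpace X]
    {η η' : ℝ} (hη' : 0 < η') {x y : X} (h : Near η x y) :
    Relation.ReflTransGen (fun a b => Near η' a b ∧ dist a x ≤ η ∧ dist b x ≤ η) x y := by
  obtain ⟨C, hC, hxC, hyC, hdiam⟩ := h
  obtain ⟨δ, hδ, hnear⟩ := near_of_dist (X := X) hη'
  have hstep : ∀ a ∈ C, ∀ b ∈ C, dist a b < δ →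
      Relation.ReflTransGen (fun a b => Near η' a b ∧ dist a x ≤ η ∧ dist b x ≤ η) a b :=
    fun a ha b hb hab => Relation.ReflTransGen.single
      ⟨hnear a b hab, hdiam a ha x hxC, hdiam b hb x hxC⟩
  refine hC.induction₂' (fun a b =>
      Relation.ReflTransGen (fun a b => Near η' a b ∧ dist a x ≤ η ∧ dist b x ≤ η) a b) ?_ ?_ hxC hyC
  · intro a ha
    have h2 : Metric.ball a δ ∩ C ∈ 𝓝[C] a :=
      Filter.inter_mem (mem_nhdsWithin_of_mem_nhds (Metric.ball_mem_nhds a hδ)) self_mem_nhdsWithin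
    filter_upwards [h2] with b hb
    have hb' := Metric.mem_ball.mp hb.1
    exact ⟨hstep a ha b hb.2 (by rw [dist_comm]; exact hb'), hstep b hb.2 a ha hb'⟩
  · intro a b c _ _ _ hab hbc
    exact hab.trans hbc

end Pool.Agent.Lib.P98
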