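import Pool.Agent.Lib.P98.PeanoA

/-!
Module P98.PeanoB.  Points in a small connected set are joined by a small path.

PROOF.  Let `E` be a Banach space that contains `X` isometrically (`kuratowskiEmbedding.isometry X`, `X` is separable), `ι : X → E`; `ι X` is compact, closed.
Inductive predicate `Good η : Path (ι x) (ι y) → Prop` (or: a predicate on functions `ℝ → E` / on continuous maps): affine paths from `ι x` to `ι y` with
`Near η x y`, closed under `Path.trans`.
(1) Every point of a good path of level `η` is within `η` of `ι X`.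
(2) If `γ` is good of level `η` and `η' > 0` then there is `γ'` good of level `η'` with the same ends and `dist (γ t) (γ' t) ≤ 3 η + η'` for all `t`: for an affine piece
    from `ι x` to `ι y` use `near_chain`: by induction along the chain (`ReflTransGen`) there is a good path of level `η'` from `ι x` to `ι y` all of
    whose points are within `η + η'` of `ι x`; for `trans` the parametrisations agree (`Path.trans_apply`).
(3) Levels `ε / 2^n`: uniformly Cauchy, limit `γ∞ : [0,1] → E` continuous, values in `ι X`, within `≤ 20 ε` of `ι x`; pull back by the isometry.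
The constant 20 may be replaced by any other constant if convenient (tell helper18).
-/

open Set Topology

namespace Pool.Agent.Lib.P98

namespace PeanoBAux

section Gen

variable {X : Type*} [MetricSpace X] {E : Type*} [NormedAddCommGroup E] [NormedSpace ℝ E]

/-- the affine path -/
noncomputable def seg (a b : E) : Path a b where
  toFun t := AffineMap.lineMap a b (t : ℝ)
  continuous_toFun := by
    simp only [AffineMap.lineMap_apply_module']
    fun_prop
  source' := by simp
  target' := by simp

theorem seg_apply (a b : E) (t : unitInterval) : seg a b t = AffineMap.lineMap a b (t : ℝ) := rfl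

theorem dist_seg_left (a b : E) (t : unitInterval) : dist (seg a b t) a ≤ dist a b := by
  rw [seg_apply, dist_lineMap_left]
  have h1 : ‖(t : ℝ)‖ ≤ 1 := by
    rw [Real.norm_of_nonneg t.2.1]
    exact t.2.2
  calc ‖(t : ℝ)‖ * dist a b ≤ 1 * dist a b := mul_le_mul_of_nonneg_right h1 dist_nonneg
    _ = dist a b := one_mul _

/-- paths composed of small affine pieces -/
inductive Good (ι : X → E) (η : ℝ) : ∀ {x y : X}, Path (ι x) (ι y) → Prop
  | seg {x y : X} (h : Near η x y) : Good ι η (seg (ι x) (ι y))
  | trans {x y z : X} {γ : Path (ι x) (ι y)} {γ' : Path (ι y) (ι z)} (h : Good ι η γ)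
      (h' : Good ι η γ') : Good ι η (γ.trans γ')

theorem near_dist {η : ℝ} {x y : X} (h : Near η x y) : dist x y ≤ η := by
  obtain ⟨C, _, hx, hy, hC⟩ := h
  exact hC x hx y hy

theorem near_refl {η : ℝ} (hη : 0 ≤ η) (x : X) : Near η x x := by
  refine ⟨{x}, isPreconnected_singleton, rfl, rfl, ?_⟩
  intro u hu v hv
  rw [mem_singleton_iff] at hu hv
  rw [hu, hv, dist_self]
  exact hη

variable {ι : X → E}

theorem good_close (hι : Isometry ι) {η : ℝ} {x y : X} {γ : Path (ι x) (ι y)}
    (h : Good ι η γ) : ∀ t, ∃ u : X, dist (γ t) (ι u) ≤ η := by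
  induction h with
  | seg h =>
    rename_i x y
    intro t
    refine ⟨x, (dist_seg_left _ _ t).trans ?_⟩
    rw [hι.dist_eq]
    exact near_dist h
  | trans h h' ih ih' =>
    intro t
    rw [Path.trans_apply]
    split_ifs with ht
    · exact ih _
    · exact ih' _

/-- a chain gives a good path near its first point -/
theorem good_of_chain (hι : Isometry ι) {η η' : ℝ} (hη' : 0 ≤ η') {x a b : X}
    (hax : dist a x ≤ η)
    (h : Relation.ReflTransGen (fun a b => Near η' a b ∧ dist a x ≤ η ∧ dist b x ≤ η) a b) :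
    ∃ γ : Path (ι a) (ι b), Good ι η' γ ∧ ∀ t, dist (γ t) (ι x) ≤ η + η' := by
  induction h with
  | refl =>
    refine ⟨seg (ι a) (ι a), Good.seg (near_refl hη' a), fun t => ?_⟩
    have h1 := dist_seg_left (ι a) (ι a) t
    rw [dist_self] at h1
    have h2 := dist_triangle (seg (ι a) (ι a) t) (ι a) (ι x)
    rw [hι.dist_eq] at h2
    linarith
  | tail h1 hbc ih =>
    rename_i b c
    obtain ⟨γ, hγ, hd⟩ := ih
    refine ⟨γ.trans (seg (ι b) (ι c)), Good.trans hγ (Good.seg hbc.1), fun t => ?_⟩
    rw [Path.trans_apply]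
    split_ifs with ht
    · exact hd _
    · have h1 := dist_seg_left (ι b) (ι c)
        ⟨2 * (t : ℝ) - 1, unitInterval.two_mul_sub_one_mem_iff.2 ⟨(not_le.1 ht).le, t.2.2⟩⟩
      rw [hι.dist_eq] at h1
      have h2 := near_dist hbc.1
      have h3 := dist_triangle (seg (ι b) (ι c)
        ⟨2 * (t : ℝ) - 1, unitInterval.two_mul_sub_one_mem_iff.2 ⟨(not_le.1 ht).le, t.2.2⟩⟩)
        (ι b) (ι x)
      rw [hι.dist_eq b x] at h3
      have h4 := hbc.2.1
      linarith

/-- refinement of a good path -/
theorem good_refine [CompactSpace X] [LocallyConnectedSpace X] (hι : Isometry ι) {η η' : ℝ}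
    (hη' : 0 < η') {x y : X} {γ : Path (ι x) (ι y)} (h : Good ι η γ) :
    ∃ γ' : Path (ι x) (ι y), Good ι η' γ' ∧ ∀ t, dist (γ t) (γ' t) ≤ 3 * η + η' := by
  induction h with
  | seg h =>
    rename_i x y
    have hxy := near_dist h
    have hη : 0 ≤ η := le_trans dist_nonneg hxy
    obtain ⟨γ', hγ', hd⟩ := good_of_chain (ι := ι) hι hη'.le (x := x) (a := x) (b := y)
      (by rw [dist_self]; exact hη) (near_chain hη' h)
    refine ⟨γ', hγ', fun t => ?_⟩
    have h1 := dist_seg_left (ι x) (ι y) t
    rw [hι.dist_eq] at h1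
    have h2 := hd t
    have h3 := dist_triangle_right (seg (ι x) (ι y) t) (γ' t) (ι x)
    linarith
  | trans h h' ih ih' =>
    obtain ⟨γ1, h1, d1⟩ := ih
    obtain ⟨γ2, h2, d2⟩ := ih'
    refine ⟨γ1.trans γ2, Good.trans h1 h2, fun t => ?_⟩
    rw [Path.trans_apply, Path.trans_apply]
    split_ifs with ht
    · exact d1 _
    · exact d2 _

theorem joined [CompactSpace X] [LocallyConnectedSpace X] [CompleteSpace E] (hι : Isometry ι)
    {ε : ℝ} (hε : 0 < ε) {x y : X} (h : Near ε x y) : JoinedIn (Metric.ball x (20 * ε)) x y := by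
  classical
  have hstep : ∀ (n : ℕ) (γ : {γ : Path (ι x) (ι y) // Good ι (ε / 2 ^ n) γ}),
      ∃ γ' : {γ : Path (ι x) (ι y) // Good ι (ε / 2 ^ (n + 1)) γ},
        ∀ t, dist (γ.1 t) (γ'.1 t) ≤ 3 * (ε / 2 ^ n) + ε / 2 ^ (n + 1) := by
    intro n γ
    obtain ⟨γ', h1, h2⟩ := good_refine hι (η' := ε / 2 ^ (n + 1)) (by positivity) γ.2
    exact ⟨⟨γ', h1⟩, h2⟩
  choose nx hnx using hstep
  have h0 : Good ι (ε / 2 ^ 0) (seg (ι x) (ι y)) := by
    rw [pow_zero, div_one]
    exact Good.seg h
  let sq : ∀ n : ℕ, {γ : Path (ι x) (ι y) // Good ι (ε / 2 ^ n) γ} := fun n =>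
    Nat.rec ⟨seg (ι x) (ι y), h0⟩ (fun k γ => nx k γ) n
  have hsq : ∀ n, sq (n + 1) = nx n (sq n) := fun n => rfl
  let f : ℕ → C(unitInterval, E) := fun n => (sq n).1.toContinuousMap
  have hf : ∀ n t, f n t = (sq n).1 t := fun n t => rfl
  have hd : ∀ n, dist (f n) (f (n + 1)) ≤ 7 * ε / 2 / 2 ^ n := by
    intro n
    rw [ContinuousMap.dist_le (by positivity)]
    intro t
    show dist ((sq n).1 t) ((nx n (sq n)).1 t) ≤ 7 * ε / 2 / 2 ^ n
    refine (hnx n (sq n) t).trans (le_of_eq ?_)
    rw [pow_succ]
    field_simp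
    ring
  obtain ⟨g, hg⟩ := cauchySeq_tendsto_of_complete (cauchySeq_of_le_geometric_two hd)
  have hg0 : dist (f 0) g ≤ 7 * ε := dist_le_of_le_geometric_two_of_tendsto₀ hd hg
  have hgt : ∀ t, Filter.Tendsto (fun n => f n t) Filter.atTop (𝓝 (g t)) := by
    intro t
    exact ((continuous_eval_const t).tendsto g).comp hg
  have hcl : IsClosed (range ι) := hι.isClosedEmbedding.isClosed_range
  have hr : ∀ t, g t ∈ range ι := by
    intro t
    rw [← hcl.closure_eq, Metric.mem_closure_iff]
    intro δ hδ
    have h1 : Filter.Tendsto (fun n : ℕ => ε / 2 ^ n) Filter.atTop (𝓝 0) := by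
      have := (tendsto_pow_atTop_nhds_zero_of_lt_one (r := (1 / 2 : ℝ)) (by norm_num)
        (by norm_num)).const_mul ε
      rw [mul_zero] at this
      refine this.congr fun n => ?_
      rw [one_div, inv_pow]
      rfl
    have h2 := (Metric.tendsto_atTop.mp (hgt t)) (δ / 2) (half_pos hδ)
    obtain ⟨N1, hN1⟩ := h2
    obtain ⟨N2, hN2⟩ := (Filter.eventually_atTop.mp (h1.eventually (gt_mem_nhds (half_pos hδ))))
    set n := max N1 N2
    obtain ⟨u, hu⟩ := good_close hι (sq n).2 t
    refine ⟨ι u, mem_range_self u, ?_⟩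
    have h3 := hN1 n (le_max_left _ _)
    have h4 := hN2 n (le_max_right _ _)
    have h5 := dist_triangle_left (g t) (ι u) (f n t)
    rw [hf] at h3 h5
    linarith
  choose p hp using hr
  have hpc : Continuous p := by
    rw [hι.isEmbedding.continuous_iff]
    have : ι ∘ p = g := by
      funext t
      exact hp t
    rw [this]
    exact g.continuous
  have hend0 : g 0 = ι x := by
    refine tendsto_nhds_unique (hgt 0) ?_
    have : (fun n => f n 0) = fun _ => ι x := by
      funext n
      rw [hf]
      exact (sq n).1.source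
    rw [this]
    exact tendsto_const_nhds
  have hend1 : g 1 = ι y := by
    refine tendsto_nhds_unique (hgt 1) ?_
    have : (fun n => f n 1) = fun _ => ι y := by
      funext n
      rw [hf]
      exact (sq n).1.target
    rw [this]
    exact tendsto_const_nhds
  refine ⟨{ toFun := p, continuous_toFun := hpc, source' := ?_, target' := ?_ }, ?_⟩
  · exact hι.injective ((hp 0).trans hend0)
  · exact hι.injective ((hp 1).trans hend1)
  · intro t
    show p t ∈ Metric.ball x (20 * ε)
    rw [Metric.mem_ball, ← hι.dist_eq, hp t]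
    have h1 : dist (f 0 t) (g t) ≤ 7 * ε := (ContinuousMap.dist_apply_le_dist t).trans hg0
    have h2 : dist (f 0 t) (ι x) ≤ dist (ι x) (ι y) := dist_seg_left _ _ t
    rw [hι.dist_eq] at h2
    have h3 := near_dist h
    have h4 := dist_triangle_left (g t) (ι x) (f 0 t)
    linarith

end Gen

end PeanoBAux

theorem joined_of_near {X : Type*} [MetricSpace X] [CompactSpace X] [LocallyConnectedSpace X]
    {ε : ℝ} (hε : 0 < ε) {x y : X} (h : Near ε x y) : JoinedIn (Metric.ball x (20 * ε)) x y :=
  PeanoBAux.joined (kuratowskiEmbedding.isometry X) hε h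

end Pool.Agent.Lib.P98
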