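import Pool.Agent.Lib.P98.Defs

/-!
Module P98.Sys: the system of sets and paths, (7) in `/team-store/r18_ulam.md` (definitions only).
-/

open Set Topology

namespace Pool.Agent.Lib.P98

/-- The data around a marked point `l` of an open set `Y`: a neighbourhood `A` of `l` with totally
disconnected frontier, closure in `Y`, and two paths `R 0`, `R 1` in `Y` from a second point `l'`
off the closure of `A` to `l` that have no common point on the frontier of `A`. -/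
structure Spot {X : Type*} [MetricSpace X] (Y A : Set X) (l l' : X) (R : Fin 2 → ℝ → X) : Prop where
  opA : IsOpen A
  clA : closure A ⊆ Y
  memA : l ∈ A
  notA : l' ∉ closure A
  tdA : IsTotallyDisconnected (frontier A)
  cont : ∀ a, Continuous (R a)
  ends : ∀ a, R a 0 = l' ∧ R a 1 = l
  inY : ∀ a, ∀ t ∈ Icc (0 : ℝ) 1, R a t ∈ Y
  cross : ∀ x ∈ frontier A, ∀ t ∈ Icc (0 : ℝ) 1, ∀ t' ∈ Icc (0 : ℝ) 1, R 0 t = x → R 1 t' ≠ x

/-- The system: `O i` and `W k` as in `exists_cover`, `G i ⊆ V i ⊆ O i`, spots in `G i` and in `W k`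
off the closures of the `V i`, and two paths from `lam i` to `mu k` for adjacent `i`, `k`. -/
structure Sys {X : Type*} [MetricSpace X] (ε : ℝ) (m n : ℕ) (O G V : Fin m → Set X)
    (W : Fin n → Set X) (A : Fin m → Set X) (lam lam' : Fin m → X) (R : Fin m → Fin 2 → ℝ → X)
    (B : Fin n → Set X) (mu mu' : Fin n → X) (Q : Fin n → Fin 2 → ℝ → X)
    (P : Fin m → Fin n → Fin 2 → ℝ → X) : Prop where
  opO : ∀ i, IsOpen (O i)
  dmO : ∀ i, ∀ x ∈ O i, ∀ y ∈ O i, dist x y < ε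
  djO : ∀ i j, i ≠ j → Disjoint (O i) (O j)
  opW : ∀ k, IsOpen (W k)
  dmW : ∀ k, ∀ x ∈ W k, ∀ y ∈ W k, dist x y < ε
  djW : ∀ k l, k ≠ l → Disjoint (W k) (W l)
  cov : ∀ x, (∃ i, x ∈ O i) ∨ ∃ k, x ∈ W k
  adj : ∀ i, ∃ k, (O i ∩ W k).Nonempty
  opV : ∀ i, IsOpen (V i)
  clG : ∀ i, closure (G i) ⊆ V i
  clV : ∀ i, closure (V i) ⊆ O i
  tdV : ∀ i, IsTotallyDisconnected (frontier (V i))
  cov' : ∀ i, ∀ x ∈ O i, (∀ k, x ∉ W k) → x ∈ G i
  spot : ∀ i, Spot (G i) (A i) (lam i) (lam' i) (R i)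
  spot' : ∀ k, Spot (W k) (B k) (mu k) (mu' k) (Q k)
  djBV : ∀ k i, Disjoint (closure (B k)) (closure (V i))
  contP : ∀ i k, (O i ∩ W k).Nonempty → ∀ a, Continuous (P i k a)
  endsP : ∀ i k, (O i ∩ W k).Nonempty → ∀ a, P i k a 0 = lam i ∧ P i k a 1 = mu k
  inP : ∀ i k, (O i ∩ W k).Nonempty → ∀ a, ∀ t ∈ Icc (0 : ℝ) 1, P i k a t ∈ G i ∪ W k
  crossP : ∀ i k, ∀ x ∈ frontier (V i), x ∈ W k → ∀ t ∈ Icc (0 : ℝ) 1, ∀ t' ∈ Icc (0 : ℝ) 1,
    P i k 0 t = x → P i k 1 t' ≠ x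

end Pool.Agent.Lib.P98
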