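import Pool.Agent.Lib.P98.Sys
import Pool.Agent.Lib.P98.Cover
import Pool.Agent.Lib.P98.Circ
import Pool.Agent.Lib.P98.Exit

/-!
Module P98.SysA: existence of the system, (7) in `/team-store/r18_ulam.md`.
-/

open Set Topology

namespace Pool.Agent.Lib.P98

/-- A spot from two paths that meet only in their ends. -/
theorem exists_spot {X : Type*} [MetricSpace X] [CompactSpace X] (hd : DimLeOne X) {Y Z : Set X}
    (hY : IsOpen Y) (hZ : IsClosed Z) {l l' : X} {R : Fin 2 → ℝ → X} (hl : l ≠ l') (hlZ : l ∉ Z)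
    (hc : ∀ a, Continuous (R a)) (he : ∀ a, R a 0 = l' ∧ R a 1 = l)
    (hin : ∀ a, ∀ t ∈ Icc (0 : ℝ) 1, R a t ∈ Y)
    (hx : ∀ t ∈ Icc (0 : ℝ) 1, ∀ t' ∈ Icc (0 : ℝ) 1, R 0 t = R 1 t' → R 0 t = l ∨ R 0 t = l') :
    ∃ A : Set X, Spot Y A l l' R ∧ Disjoint (closure A) Z := by
  have hlY : l ∈ Y := by
    have := hin 0 1 ⟨zero_le_one, le_rfl⟩
    rwa [(he 0).2] at this
  obtain ⟨A, hA, hlA, hAL, htd⟩ := sep hd (K := {l}) (L := Yᶜ ∪ {l'} ∪ Z) isClosed_singleton
    ((hY.isClosed_compl.union isClosed_singleton).union hZ) (by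
      rw [Set.disjoint_singleton_left]
      rintro ((h | h) | h)
      · exact h hlY
      · exact hl h
      · exact hlZ h)
  have hlA' : l ∈ A := hlA rfl
  rw [Set.disjoint_left] at hAL
  refine ⟨A, ⟨hA, ?_, hlA', ?_, htd, hc, he, hin, ?_⟩, ?_⟩
  · intro x hxA
    by_contra hxY
    exact hAL hxA (Or.inl (Or.inl hxY))
  · intro hxA
    exact hAL hxA (Or.inl (Or.inr rfl))
  · intro x hxA t ht t' ht' h0 h1
    rw [hA.frontier_eq] at hxA
    rcases hx t ht t' ht' (h0.trans h1.symm) with h | h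
    · rw [h0] at h
      rw [h] at hxA
      exact hxA.2 hlA'
    · rw [h0] at h
      exact hAL hxA.1 (Or.inl (Or.inr h))
  · rw [Set.disjoint_left]
    intro x hxA hxZ
    exact hAL hxA (Or.inr hxZ)

theorem exists_sys {X : Type*} [MetricSpace X] [CompactSpace X] [LocallyPathConnectedSpace X]
    [ConnectedSpace X] [Nontrivial X] (hd : DimLeOne X) (hno : ¬ HasArcCore X) {ε : ℝ}
    (hε : 0 < ε) :
    ∃ (m n : ℕ) (O G V : Fin m → Set X)
      (W : Fin n → Set X) (A : Fin m → Set X) (lam lam' : Fin m → X) (R : Fin m → Fin 2 → ℝ → X)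
      (B : Fin n → Set X) (mu mu' : Fin n → X) (Q : Fin n → Fin 2 → ℝ → X)
      (P : Fin m → Fin n → Fin 2 → ℝ → X), Sys ε m n O G V W A lam lam' R B mu mu' Q P := by
  obtain ⟨x0, y0, hxy⟩ := exists_pair_ne X
  have hε' : 0 < min ε (dist x0 y0) := lt_min hε (dist_pos.2 hxy)
  obtain ⟨m, n, O, W, hO, hW, dO, dW, cov, hne⟩ := exists_cover hd hε'
  -- circles in the cells
  have h1 := fun i => circ hno (hO i).1 (hO i).2.1.nonempty
  choose lam lam' R r1 r2 r3 r4 r5 using h1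
  -- the points `z i k`
  have h2 : ∀ i k, ∃ z, z ∈ O i ∧ ((O i ∩ W k).Nonempty → z ∈ W k) := by
    intro i k
    by_cases h : (O i ∩ W k).Nonempty
    · obtain ⟨z, hz⟩ := h
      exact ⟨z, hz.1, fun _ => hz.2⟩
    · obtain ⟨z, hz⟩ := (hO i).2.1.nonempty
      exact ⟨z, hz, fun h' => absurd h' h⟩
  choose z z1 z2 using h2
  -- hulls
  have h3 : ∀ i, ∃ G : Set X, IsOpen G ∧ IsConnected G ∧
      (O i \ ⋃ k, W k) ∪ (⋃ a, R i a '' Icc 0 1) ∪ range (z i) ⊆ G ∧ closure G ⊆ O i := by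
    intro i
    refine hull (hO i).1 (hO i).2.1 ?_ ?_
    · refine (IsCompact.union ?_ ?_).union (Set.finite_range _).isCompact
      · have : O i \ ⋃ k, W k = (⋃ k, W k)ᶜ ∩ (⋃ j ∈ {j : Fin m | j ≠ i}, O j)ᶜ := by
          ext x
          constructor
          · rintro ⟨hx, hx'⟩
            refine ⟨hx', ?_⟩
            simp only [mem_compl_iff, mem_iUnion, not_exists]
            intro j hj hxj
            exact Set.disjoint_left.1 (dO j i hj) hxj hx
          · rintro ⟨hx, hx'⟩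
            refine ⟨?_, hx⟩
            simp only [mem_compl_iff, mem_iUnion, not_exists] at hx hx'
            rcases cov x with ⟨j, hj⟩ | ⟨k, hk⟩
            · by_cases hji : j = i
              · rwa [← hji]
              · exact absurd hj (hx' j hji)
            · exact absurd hk (hx k)
        rw [this]
        exact ((isOpen_iUnion fun k => (hW k).1).isClosed_compl.inter
          (isOpen_biUnion fun j _ => (hO j).1).isClosed_compl).isCompact
      · exact isCompact_iUnion fun a => isCompact_Icc.image (r2 i a)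
    · rintro x ((hx | hx) | hx)
      · exact hx.1
      · obtain ⟨a, t, ht, rfl⟩ := mem_iUnion.1 hx
        exact r4 i a t ht
      · obtain ⟨k, rfl⟩ := hx
        exact z1 i k
  choose G g1 g2 g3 g4 using h3
  have g5 : ∀ i, ∀ x ∈ O i, (∀ k, x ∉ W k) → x ∈ G i := fun i x hx hx' =>
    g3 i (Or.inl (Or.inl ⟨hx, fun h => by
      obtain ⟨k, hk⟩ := mem_iUnion.1 h
      exact hx' k hk⟩))
  have g6 : ∀ i a, ∀ t ∈ Icc (0 : ℝ) 1, R i a t ∈ G i := fun i a t ht =>
    g3 i (Or.inl (Or.inr (mem_iUnion.2 ⟨a, t, ht, rfl⟩)))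
  have g7 : ∀ i k, z i k ∈ G i := fun i k => g3 i (Or.inr ⟨k, rfl⟩)
  have lamG : ∀ i, lam i ∈ G i := fun i => by
    have := g6 i 0 1 ⟨zero_le_one, le_rfl⟩
    rwa [(r3 i 0).2] at this
  -- circles in the joints
  have clUG : IsClosed (⋃ i, closure (G i)) := isClosed_iUnion_of_finite fun i => isClosed_closure
  have h4 : ∀ k, ∃ (mu mu' : X) (Q : Fin 2 → ℝ → X), mu ≠ mu' ∧ (∀ a, Continuous (Q a)) ∧
      (∀ a, Q a 0 = mu' ∧ Q a 1 = mu) ∧
      (∀ a, ∀ t ∈ Icc (0 : ℝ) 1, Q a t ∈ W k ∩ (⋃ i, closure (G i))ᶜ) ∧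
      ∀ t ∈ Icc (0 : ℝ) 1, ∀ t' ∈ Icc (0 : ℝ) 1, Q 0 t = Q 1 t' → Q 0 t = mu ∨ Q 0 t = mu' := by
    intro k
    refine circ hno ((hW k).1.inter clUG.isOpen_compl) ?_
    obtain ⟨x, hx, hx'⟩ := hne k
    refine ⟨x, hx, fun h => ?_⟩
    obtain ⟨i, hi⟩ := mem_iUnion.1 h
    exact hx' i (g4 i hi)
  choose mu mu' Q q1 q2 q3 q4 q5 using h4
  have muY : ∀ k, mu k ∈ W k ∧ ∀ i, mu k ∉ closure (G i) := by
    intro k
    have := q4 k 0 1 ⟨zero_le_one, le_rfl⟩
    rw [(q3 k 0).2] at this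
    exact ⟨this.1, fun i hi => this.2 (mem_iUnion.2 ⟨i, hi⟩)⟩
  -- exits
  have h5 : ∀ i k, ∃ (L1 L2 : Set X) (P : Fin 2 → ℝ → X), IsCompact L1 ∧ IsCompact L2 ∧
      L1 ⊆ O i ∧ L1 ⊆ closure (G i) ∪ W k ∧ L2 ⊆ W k ∧ Disjoint (closure (G i)) L2 ∧
      Disjoint L1 L2 ∧ ((O i ∩ W k).Nonempty → mu k ∈ L2 ∧
      (∀ a, Continuous (P a)) ∧ (∀ a, P a 0 = lam i ∧ P a 1 = mu k) ∧
      (∀ a, ∀ t ∈ Icc (0 : ℝ) 1, P a t ∈ G i ∪ W k) ∧
      ∀ t ∈ Icc (0 : ℝ) 1, ∀ t' ∈ Icc (0 : ℝ) 1, P 0 t = P 1 t' → P 0 t ∈ L1 ∪ L2) := by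
    intro i k
    by_cases hik : (O i ∩ W k).Nonempty
    · obtain ⟨L1, L2, P, p1, p2, p3, p4, p5, p6, p7, p8⟩ := exit hno (g1 i) (g2 i) (hO i).1 (g4 i)
        (hW k).1 (hW k).2.1 (lamG i) (g7 i k) (z2 i k hik) (muY k).1 ((muY k).2 i)
      exact ⟨L1, L2, P, p1, p2, p3, p4, p5, p6, p7, fun _ => p8⟩
    · exact ⟨∅, ∅, fun _ _ => lam i, isCompact_empty, isCompact_empty, empty_subset _,
        empty_subset _, empty_subset _, disjoint_bot_right, disjoint_bot_right,
        fun h => absurd h hik⟩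
  choose L1 L2 P p1 p2 p3 p4 p5 p6 p7 p8 using h5
  -- separators
  have h6 : ∀ i, ∃ V : Set X, IsOpen V ∧ closure (G i) ∪ ⋃ k, L1 i k ⊆ V ∧
      Disjoint (closure V) ((O i)ᶜ ∪ ⋃ k, L2 i k) ∧ IsTotallyDisconnected (frontier V) := by
    intro i
    refine sep hd (isClosed_closure.union (isClosed_iUnion_of_finite fun k => (p1 i k).isClosed))
      ((hO i).1.isClosed_compl.union (isClosed_iUnion_of_finite fun k => (p2 i k).isClosed)) ?_
    rw [Set.disjoint_left]
    rintro x (hx | hx) (hx' | hx')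
    · exact hx' (g4 i hx)
    · obtain ⟨k, hk⟩ := mem_iUnion.1 hx'
      exact Set.disjoint_left.1 (p6 i k) hx hk
    · obtain ⟨k, hk⟩ := mem_iUnion.1 hx
      exact hx' (p3 i k hk)
    · obtain ⟨k, hk⟩ := mem_iUnion.1 hx
      obtain ⟨l, hl⟩ := mem_iUnion.1 hx'
      by_cases hkl : k = l
      · subst hkl
        exact Set.disjoint_left.1 (p7 i k) hk hl
      · rcases p4 i k hk with h | h
        · exact Set.disjoint_left.1 (p6 i l) h hl
        · exact Set.disjoint_left.1 (dW k l hkl) h (p5 i l hl)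
  choose V v1 v2 v3 v4 using h6
  have VO : ∀ i, closure (V i) ⊆ O i := by
    intro i x hx
    by_contra hxO
    exact Set.disjoint_left.1 (v3 i) hx (Or.inl hxO)
  have muV : ∀ k i, mu k ∉ closure (V i) := by
    intro k i hmu
    by_cases hik : (O i ∩ W k).Nonempty
    · exact Set.disjoint_left.1 (v3 i) hmu (Or.inr (mem_iUnion.2 ⟨k, (p8 i k hik).1⟩))
    · exact hik ⟨mu k, VO i hmu, (muY k).1⟩
  -- spots
  have h7 : ∀ i, ∃ A : Set X, Spot (G i) A (lam i) (lam' i) (R i) ∧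
      Disjoint (closure A) (∅ : Set X) := fun i =>
    exists_spot hd (g1 i) isClosed_empty (r1 i) (notMem_empty _) (r2 i) (r3 i) (g6 i) (r5 i)
  have h8 : ∀ k, ∃ B : Set X, Spot (W k) B (mu k) (mu' k) (Q k) ∧
      Disjoint (closure B) (⋃ i, closure (V i)) := fun k =>
    exists_spot hd (hW k).1 (isClosed_iUnion_of_finite fun i => isClosed_closure) (q1 k)
      (fun h => by
        obtain ⟨i, hi⟩ := mem_iUnion.1 h
        exact muV k i hi) (q2 k) (q3 k) (fun a t ht => (q4 k a t ht).1) (q5 k)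
  choose A a1 a2 using h7
  choose B b1 b2 using h8
  refine ⟨m, n, O, G, V, W, A, lam, lam', R, B, mu, mu', Q, P, ?_⟩
  refine
    { opO := fun i => (hO i).1
      dmO := fun i x hx y hy => ((hO i).2.2 x hx y hy).trans_le (min_le_left _ _)
      djO := dO
      opW := fun k => (hW k).1
      dmW := fun k x hx y hy => ((hW k).2.2 x hx y hy).trans_le (min_le_left _ _)
      djW := dW
      cov := cov
      adj := ?_
      opV := v1
      clG := fun i => subset_union_left.trans (v2 i)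
      clV := VO
      tdV := v4
      cov' := g5
      spot := a1
      spot' := b1
      djBV := fun k i => (b2 k).mono_right (subset_iUnion (fun i => closure (V i)) i)
      contP := fun i k hik => (p8 i k hik).2.1
      endsP := fun i k hik => (p8 i k hik).2.2.1
      inP := fun i k hik => (p8 i k hik).2.2.2.1
      crossP := ?_ }
  · intro i
    by_contra hcon
    push Not at hcon
    have hcl : IsClosed (O i) := by
      have : O i = (⋃ k, W k)ᶜ ∩ (⋃ j ∈ {j : Fin m | j ≠ i}, O j)ᶜ := by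
        ext x
        constructor
        · intro hx
          refine ⟨?_, ?_⟩
          · simp only [mem_compl_iff, mem_iUnion, not_exists]
            intro k hk
            have : x ∈ O i ∩ W k := ⟨hx, hk⟩
            rw [hcon k] at this
            exact this
          · simp only [mem_compl_iff, mem_iUnion, not_exists]
            intro j hj hxj
            exact Set.disjoint_left.1 (dO j i hj) hxj hx
        · rintro ⟨hx, hx'⟩
          simp only [mem_compl_iff, mem_iUnion, not_exists] at hx hx'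
          rcases cov x with ⟨j, hj⟩ | ⟨k, hk⟩
          · by_cases hji : j = i
            · rwa [← hji]
            · exact absurd hj (hx' j hji)
          · exact absurd hk (hx k)
      rw [this]
      exact (isOpen_iUnion fun k => (hW k).1).isClosed_compl.inter
        (isOpen_biUnion fun j _ => (hO j).1).isClosed_compl
    have huniv : O i = univ := IsClopen.eq_univ ⟨hcl, (hO i).1⟩ (hO i).2.1.nonempty
    have h9 := (hO i).2.2 x0 (huniv ▸ mem_univ x0) y0 (huniv ▸ mem_univ y0)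
    exact absurd (h9.trans_le (min_le_right _ _)) (lt_irrefl _)
  · intro i k x hx hxk t ht t' ht' h0 h1
    rw [(v1 i).frontier_eq] at hx
    have hik : (O i ∩ W k).Nonempty := ⟨x, VO i hx.1, hxk⟩
    have h9 := (p8 i k hik).2.2.2.2 t ht t' ht' (h0.trans h1.symm)
    rw [h0] at h9
    rcases h9 with h9 | h9
    · exact hx.2 (v2 i (Or.inr (mem_iUnion.2 ⟨k, h9⟩)))
    · exact Set.disjoint_left.1 (v3 i) hx.1 (Or.inr (mem_iUnion.2 ⟨k, h9⟩))

end Pool.Agent.Lib.P98
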